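import Mathlib

/-!
# Borel-Cantelli for words
-/

set_option autoImplicit false

namespace Pool.Agent.E8helper48.RW

open MeasureTheory Filter

theorem exp_le_inv_sq {c : ℝ} (hc : 0 < c) (n : ℕ) (hn : 1 ≤ n) :
    Real.exp (-(c * (n : ℝ) ^ (1 / 3 : ℝ))) ≤ 720 / c ^ 6 * (1 / (n : ℝ) ^ 2) := by
  have hn' : (0 : ℝ) < n := by exact_mod_cast hn
  have h1 := Real.pow_div_factorial_le_exp (c * (n : ℝ) ^ (1 / 3 : ℝ)) (by positivity) 6
  have h2 : ((n : ℝ) ^ (1 / 3 : ℝ)) ^ 6 = (n : ℝ) ^ 2 := by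
    rw [← Real.rpow_natCast, ← Real.rpow_mul hn'.le, ← Real.rpow_natCast]
    norm_num
  rw [mul_pow, h2] at h1
  rw [Real.exp_neg, ← one_div, div_mul_div_comm, mul_one, div_le_div_iff₀ (Real.exp_pos _)
    (by positivity), one_mul]
  have h3 : ((6 : ℕ).factorial : ℝ) = 720 := by norm_num [Nat.factorial]
  rw [h3, div_le_iff₀ (by norm_num)] at h1
  linarith

theorem summable_exp {c : ℝ} (hc : 0 < c) :
    Summable fun n : ℕ => Real.exp (-(c * (n : ℝ) ^ (1 / 3 : ℝ))) := by
  have h1 : Summable fun n : ℕ => 720 / c ^ 6 * (1 / (n : ℝ) ^ 2) :=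
    (Real.summable_one_div_nat_pow.2 (by norm_num)).mul_left _
  rw [← summable_nat_add_iff 1]
  have h2 := (summable_nat_add_iff 1).2 h1
  refine Summable.of_nonneg_of_le (fun n => (Real.exp_pos _).le) (fun n => ?_) h2
  exact exp_le_inv_sq hc (n + 1) (by omega)

theorem almost {ι : Type} [Fintype ι] [Nonempty ι] [MeasurableSpace ι] [MeasurableSingletonClass ι]
    (Q : ∀ n : ℕ, (Fin n → ι) → Prop) {c C : ℝ} (hc : 0 < c) (hC : 0 ≤ C)
    (h : ∀ n, (Nat.card {w : Fin n → ι // Q n w} : ℝ) ≤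
      C * (Fintype.card ι : ℝ) ^ n * Real.exp (-(c * (n : ℝ) ^ (1 / 3 : ℝ)))) :
    ∀ᵐ ω ∂(Measure.infinitePi fun _ : ℕ => (PMF.uniformOfFintype ι).toMeasure),
      ∀ᶠ n in atTop, ¬ Q n (fun k => ω k) := by
  classical
  set μ : Measure (ℕ → ι) := Measure.infinitePi fun _ : ℕ => (PMF.uniformOfFintype ι).toMeasure
    with hμ
  have hq : 0 < Fintype.card ι := Fintype.card_pos
  have hq' : (0 : ℝ) < Fintype.card ι := by exact_mod_cast hq
  -- cylinders
  have hcyl : ∀ (n : ℕ) (w : Fin n → ι), μ {ω | ∀ k : Fin n, ω k = w k} =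
      ((Fintype.card ι : ENNReal)⁻¹) ^ n := by
    intro n w
    let t : ℕ → Set ι := fun k => if hk : k < n then {w ⟨k, hk⟩} else Set.univ
    have h1 : {ω : ℕ → ι | ∀ k : Fin n, ω k = w k} = Set.pi (Finset.range n) t := by
      ext ω
      simp only [Set.mem_ofPred_eq, Set.mem_pi, Finset.coe_range, Set.mem_Iio]
      constructor
      · intro h k hk
        simp only [t, dif_pos hk, Set.mem_singleton_iff]
        exact h ⟨k, hk⟩
      · intro h k
        have := h k k.2
        simpa only [t, dif_pos k.2, Set.mem_singleton_iff] using this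
    rw [h1, hμ, Measure.infinitePi_pi]
    · have h2 : ∀ k ∈ Finset.range n, (PMF.uniformOfFintype ι).toMeasure (t k) =
          (Fintype.card ι : ENNReal)⁻¹ := by
        intro k hk
        rw [Finset.mem_range] at hk
        simp only [t, dif_pos hk]
        rw [PMF.toMeasure_apply_singleton _ _ (measurableSet_singleton _),
          PMF.uniformOfFintype_apply]
      rw [Finset.prod_congr rfl h2, Finset.prod_const, Finset.card_range]
    · intro k hk
      have hk' := Finset.mem_range.1 hk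
      simp only [t, dif_pos hk']
      exact measurableSet_singleton _
  have hA : ∀ n, μ {ω | Q n (fun k => ω k)} ≤
      ENNReal.ofReal (C * Real.exp (-(c * (n : ℝ) ^ (1 / 3 : ℝ)))) := by
    intro n
    have h1 : {ω : ℕ → ι | Q n (fun k => ω k)} ⊆
        ⋃ w ∈ (Finset.univ.filter fun w : Fin n → ι => Q n w), {ω | ∀ k : Fin n, ω k = w k} := by
      intro ω hω
      simp only [Set.mem_iUnion]
      exact ⟨fun k => ω k, Finset.mem_filter.2 ⟨Finset.mem_univ _, hω⟩, fun k => rfl⟩
    refine (measure_mono h1).trans ((measure_biUnion_finset_le _ _).trans ?_)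
    rw [Finset.sum_congr rfl fun w _ => hcyl n w, Finset.sum_const, nsmul_eq_mul]
    have h2 : ((Finset.univ.filter fun w : Fin n → ι => Q n w).card : ℝ) ≤
        C * (Fintype.card ι : ℝ) ^ n * Real.exp (-(c * (n : ℝ) ^ (1 / 3 : ℝ))) := by
      refine le_trans (le_of_eq ?_) (h n)
      rw [Nat.card_eq_fintype_card, Fintype.card_subtype]
    have h3 : ((Finset.univ.filter fun w : Fin n → ι => Q n w).card : ENNReal) =
        ENNReal.ofReal ((Finset.univ.filter fun w : Fin n → ι => Q n w).card : ℝ) := by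
      rw [ENNReal.ofReal_natCast]
    have h4 : ((Fintype.card ι : ENNReal)⁻¹) ^ n = ENNReal.ofReal (((Fintype.card ι : ℝ) ^ n)⁻¹) := by
      rw [← inv_pow, ENNReal.ofReal_pow (by positivity), ENNReal.ofReal_inv_of_pos hq',
        ENNReal.ofReal_natCast]
    rw [h3, h4, ← ENNReal.ofReal_mul (by positivity)]
    apply ENNReal.ofReal_le_ofReal
    rw [← div_eq_mul_inv, div_le_iff₀ (by positivity)]
    linarith
  have hsum : ∑' n, μ {ω | Q n (fun k => ω k)} ≠ ⊤ := by
    have h1 : Summable fun n : ℕ => C * Real.exp (-(c * (n : ℝ) ^ (1 / 3 : ℝ))) :=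
      (summable_exp hc).mul_left _
    refine ne_top_of_le_ne_top ?_ (ENNReal.tsum_le_tsum hA)
    rw [← ENNReal.ofReal_tsum_of_nonneg (fun n => by positivity) h1]
    exact ENNReal.ofReal_ne_top
  have h1 := measure_setOfPred_frequently_eq_zero hsum
  rw [ae_iff]
  refine measure_mono_null ?_ h1
  intro ω hω
  simpa [Filter.Frequently] using hω

end Pool.Agent.E8helper48.RW
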