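import Mathlib

/-!
# Subsums in a vector space, sums over words
-/

set_option autoImplicit false

namespace Pool.Agent.E8helper48.RW

open Module

section Subsums

variable {F M : Type} [Field F] [AddCommGroup M] [Module F M]

open Classical in
/-- the number of the subsums of the list equal to `t` -/
noncomputable def cnt : List M → M → ℕ
  | [], t => if t = 0 then 1 else 0
  | z :: zs, t => cnt zs t + cnt zs (t - z)

/-- the span of the entries of a list -/
def lspan (F : Type) {M : Type} [Field F] [AddCommGroup M] [Module F M] (zs : List M) :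
    Submodule F M := Submodule.span F {z | z ∈ zs}

theorem lspan_cons (z : M) (zs : List M) : lspan F (z :: zs) = Submodule.span F {z} ⊔ lspan F zs := by
  unfold lspan
  rw [← Submodule.span_union]
  congr 1
  ext x
  simp

theorem mem_lspan_of_cnt (zs : List M) : ∀ t : M, 0 < cnt zs t → t ∈ lspan F zs := by
  induction zs with
  | nil =>
    intro t ht
    unfold cnt at ht
    split_ifs at ht with h
    · rw [h]; exact Submodule.zero_mem _
    · omega
  | cons z zs ih =>
    intro t ht
    unfold cnt at ht
    rw [lspan_cons]
    rcases Nat.eq_zero_or_pos (cnt zs t) with h | h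
    · have h1 := ih (t - z) (by omega)
      have h2 : t = z + (t - z) := by abel
      rw [h2]
      exact Submodule.add_mem _ (Submodule.mem_sup_left (Submodule.mem_span_singleton_self z))
        (Submodule.mem_sup_right h1)
    · exact Submodule.mem_sup_right (ih t h)

instance lspan_fd (zs : List M) : FiniteDimensional F (lspan F zs) := by
  unfold lspan
  have : {z | z ∈ zs}.Finite := List.finite_toSet zs
  exact FiniteDimensional.span_of_finite F this

theorem finrank_lspan_cons_le (z : M) (zs : List M) :
    finrank F (lspan F (z :: zs)) ≤ finrank F (lspan F zs) + 1 := by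
  rw [lspan_cons]
  have h1 := Submodule.finrank_add_le_finrank_add_finrank (Submodule.span F {z}) (lspan F zs)
  have h2 : finrank F (Submodule.span F {z}) ≤ 1 := by
    have := finrank_span_le_card (R := F) ({z} : Set M)
    simpa using this
  omega

theorem cnt_le (F : Type) {M : Type} [Field F] [AddCommGroup M] [Module F M] (zs : List M) :
    ∀ t : M, cnt zs t * 2 ^ finrank F (lspan F zs) ≤ 2 ^ zs.length := by
  induction zs with
  | nil =>
    intro t
    have h1 : finrank F (lspan F ([] : List M)) = 0 := by
      have h2 : lspan F ([] : List M) = ⊥ := by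
        unfold lspan
        rw [Submodule.span_eq_bot]
        intro x hx
        simp at hx
      rw [h2, finrank_bot]
    rw [h1]
    unfold cnt
    split_ifs <;> simp
  | cons z zs ih =>
    intro t
    have h1 : cnt (z :: zs) t = cnt zs t + cnt zs (t - z) := rfl
    rw [h1, List.length_cons]
    by_cases hz : z ∈ lspan F zs
    · have h2 : lspan F (z :: zs) = lspan F zs := by
        rw [lspan_cons, sup_eq_right, Submodule.span_le]
        simpa using hz
      rw [h2, Nat.add_mul, pow_succ]
      have := ih t
      have := ih (t - z)
      omega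
    · have h2 := finrank_lspan_cons_le (F := F) z zs
      have h3 : cnt zs t = 0 ∨ cnt zs (t - z) = 0 := by
        by_contra h
        push Not at h
        have h4 := mem_lspan_of_cnt (F := F) zs t (Nat.pos_of_ne_zero h.1)
        have h5 := mem_lspan_of_cnt (F := F) zs (t - z) (Nat.pos_of_ne_zero h.2)
        apply hz
        have h6 : z = t - (t - z) := by abel
        rw [h6]
        exact Submodule.sub_mem _ h4 h5
      have h4 : 2 ^ finrank F (lspan F (z :: zs)) ≤ 2 ^ finrank F (lspan F zs) * 2 := by
        rw [← pow_succ]
        exact Nat.pow_le_pow_right (by norm_num) h2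
      have h5 := ih t
      have h6 := ih (t - z)
      rw [pow_succ]
      calc (cnt zs t + cnt zs (t - z)) * 2 ^ finrank F (lspan F (z :: zs))
          ≤ (cnt zs t + cnt zs (t - z)) * (2 ^ finrank F (lspan F zs) * 2) :=
            Nat.mul_le_mul_left _ h4
        _ ≤ 2 ^ zs.length * 2 := by
            rcases h3 with h | h
            · rw [h, Nat.zero_add]; nlinarith
            · rw [h, Nat.add_zero]; nlinarith

end Subsums

/-- the indicator of a proposition -/
noncomputable def ind (p : Prop) : ℝ := @ite _ p (Classical.propDecidable p) 1 0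

theorem ind_pos {p : Prop} (h : p) : ind p = 1 := if_pos h

theorem ind_neg {p : Prop} (h : ¬p) : ind p = 0 := if_neg h

theorem ind_nonneg (p : Prop) : 0 ≤ ind p := by
  by_cases h : p
  · rw [ind_pos h]; exact zero_le_one
  · rw [ind_neg h]

theorem ind_le_one (p : Prop) : ind p ≤ 1 := by
  by_cases h : p
  · rw [ind_pos h]
  · rw [ind_neg h]; exact zero_le_one

/-! ### sums over words -/

section Sums

variable {κ : Type} [Fintype κ]

/-- the sum of `F` over all words of length `n` -/
noncomputable def S : ℕ → (List κ → ℝ) → ℝ
  | 0, F => F []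
  | n + 1, F => ∑ u, S n (fun l => F (u :: l))

theorem S_succ (n : ℕ) (F : List κ → ℝ) : S (n + 1) F = ∑ u, S n (fun l => F (u :: l)) := rfl

theorem S_ofFn (n : ℕ) : ∀ F : List κ → ℝ, S n F = ∑ w : Fin n → κ, F (List.ofFn w) := by
  induction n with
  | zero => intro F; simp [S]
  | succ n ih =>
    intro F
    rw [S_succ, ← (Fin.consEquiv (fun _ => κ)).sum_comp, Fintype.sum_prod_type]
    refine Finset.sum_congr rfl fun u _ => ?_
    rw [ih]
    refine Finset.sum_congr rfl fun w _ => ?_
    simp [Fin.consEquiv]

theorem S_mono (n : ℕ) : ∀ {F G : List κ → ℝ}, (∀ l, l.length = n → F l ≤ G l) → S n F ≤ S n G := by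
  induction n with
  | zero => intro F G h; exact h [] rfl
  | succ n ih =>
    intro F G h
    rw [S_succ, S_succ]
    exact Finset.sum_le_sum fun u _ => ih fun l hl => h (u :: l) (by simp [hl])

theorem S_congr (n : ℕ) {F G : List κ → ℝ} (h : ∀ l, l.length = n → F l = G l) : S n F = S n G :=
  le_antisymm (S_mono n fun l hl => (h l hl).le) (S_mono n fun l hl => (h l hl).ge)

theorem S_add (n : ℕ) : ∀ (F G : List κ → ℝ), S n (fun l => F l + G l) = S n F + S n G := by
  induction n with
  | zero => intro F G; rfl
  | succ n ih =>
    intro F G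
    rw [S_succ, S_succ, S_succ, ← Finset.sum_add_distrib]
    exact Finset.sum_congr rfl fun u _ => ih _ _

theorem S_smul (n : ℕ) (c : ℝ) : ∀ (F : List κ → ℝ), S n (fun l => c * F l) = c * S n F := by
  induction n with
  | zero => intro F; rfl
  | succ n ih =>
    intro F
    rw [S_succ, S_succ, Finset.mul_sum]
    exact Finset.sum_congr rfl fun u _ => ih _

theorem S_const (n : ℕ) (c : ℝ) : S n (fun _ : List κ => c) = (Fintype.card κ : ℝ) ^ n * c := by
  induction n with
  | zero => simp [S]
  | succ n ih =>
    rw [S_succ, Finset.sum_congr rfl fun u _ => ih, Finset.sum_const, Finset.card_univ,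
      nsmul_eq_mul, pow_succ]
    ring

theorem S_nonneg (n : ℕ) {F : List κ → ℝ} (h : ∀ l, 0 ≤ F l) : 0 ≤ S n F := by
  have := S_mono n (F := fun _ => 0) (G := F) fun l _ => h l
  rwa [S_const, mul_zero] at this

theorem S_append (m n : ℕ) : ∀ F : List κ → ℝ,
    S (m + n) F = S m (fun l₁ => S n (fun l₂ => F (l₁ ++ l₂))) := by
  induction m with
  | zero => intro F; simp [S]
  | succ m ih =>
    intro F
    rw [Nat.succ_add, S_succ, S_succ]
    exact Finset.sum_congr rfl fun u _ => ih _

end Sums

end Pool.Agent.E8helper48.RW
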