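import Pool.Agent.E8helper48.RW.Coll

/-!
# Random words of affine maps
-/

set_option autoImplicit false
set_option linter.unusedSectionVars false

namespace Pool.Agent.E8helper48.RW

open Module
open Pool.Agent.H301R2.SSE (QB mem_QB Lt Lt_alg Lt_log)

section

variable {κ : Type} [Fintype κ] [DecidableEq κ] {Γ : Type} [LinearOrderedCommGroupWithZero Γ]
variable {p : κ → Γ} {U : Finset κ}

theorem ind_not (P : Prop) : ind (¬P) = 1 - ind P := by
  by_cases h : P
  · rw [ind_pos h, ind_neg (not_not.2 h), sub_self]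
  · rw [ind_neg h, ind_pos h, sub_zero]

theorem multi (hp : ∀ u, p u ≠ 0) (hne : ∃ u, p u ≠ 1) (hU : 4 ≤ U.card) (g : ℕ) (hg : 1 ≤ g)
    (z : ℝ) (hz : z ≤ 2 / (((Fintype.card κ : ℝ) + 3) * (Fintype.card κ : ℝ) ^ 2) * √(g : ℝ))
    (t : ℕ) : S (t * g) (fun l => ind (¬(z ≤ NL p U l))) ≤
      ((1 - 1 / (Fintype.card κ : ℝ)) ^ t) * (Fintype.card κ : ℝ) ^ (t * g) := by
  have hq : 0 < Fintype.card κ := Fintype.card_pos_iff.2 ⟨hne.choose⟩
  have hq' : (1 : ℝ) ≤ (Fintype.card κ : ℝ) := by exact_mod_cast hq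
  have h0 : 0 ≤ 1 - 1 / (Fintype.card κ : ℝ) := by
    rw [sub_nonneg, div_le_one (by linarith)]
    exact hq'
  have h1 : S g (fun l => ind (¬(z ≤ NL p U l))) ≤
      (1 - 1 / (Fintype.card κ : ℝ)) * (Fintype.card κ : ℝ) ^ g := by
    have h2 := group hp hne hU g hg
    have h3 : S g (fun l => ind (2 / (((Fintype.card κ : ℝ) + 3) * (Fintype.card κ : ℝ) ^ 2) *
        √(g : ℝ) ≤ NL p U l)) ≤ S g (fun l => ind (z ≤ NL p U l)) := by
      refine S_mono g fun l _ => ?_
      by_cases h : 2 / (((Fintype.card κ : ℝ) + 3) * (Fintype.card κ : ℝ) ^ 2) *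
        √(g : ℝ) ≤ NL p U l
      · rw [ind_pos h, ind_pos (hz.trans h)]
      · rw [ind_neg h]; exact ind_nonneg _
    have h4 : S g (fun l => ind (¬(z ≤ NL p U l))) =
        (Fintype.card κ : ℝ) ^ g - S g (fun l => ind (z ≤ NL p U l)) := by
      have h5 := S_add g (fun l => ind (¬(z ≤ NL p U l))) (fun l => ind (z ≤ NL p U l))
      have h6 : S g (fun l => ind (¬(z ≤ NL p U l)) + ind (z ≤ NL p U l)) =
          (Fintype.card κ : ℝ) ^ g * 1 := by
        rw [← S_const]
        refine S_congr g fun l _ => ?_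
        rw [ind_not]; ring
      rw [h6] at h5
      linarith
    rw [h4]
    have h7 : (1 - 1 / (Fintype.card κ : ℝ)) * (Fintype.card κ : ℝ) ^ g =
        (Fintype.card κ : ℝ) ^ g - (Fintype.card κ : ℝ) ^ g / (Fintype.card κ : ℝ) := by ring
    rw [h7]
    linarith
  induction t with
  | zero =>
    simp only [Nat.zero_mul, S, pow_zero, mul_one]
    exact ind_le_one _
  | succ t ih =>
    rw [Nat.succ_mul, Nat.add_comm, S_append]
    have h2 : S g (fun l₁ => S (t * g) (fun l₂ => ind (¬(z ≤ NL p U (l₁ ++ l₂))))) ≤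
        S g (fun l₁ => S (t * g) (fun l₂ => ind (¬(z ≤ NL p U l₂))) * ind (¬(z ≤ NL p U l₁))) := by
      refine S_mono g fun l₁ _ => ?_
      rw [mul_comm (S (t * g) _), ← S_smul]
      refine S_mono (t * g) fun l₂ _ => ?_
      by_cases h : z ≤ NL p U (l₁ ++ l₂)
      · rw [ind_neg (not_not.2 h)]
        exact mul_nonneg (ind_nonneg _) (ind_nonneg _)
      · have h3 : ¬(z ≤ NL p U l₁) := fun h4 => h (h4.trans (by
          exact_mod_cast NL_append_left hp U l₁ l₂))
        have h4 : ¬(z ≤ NL p U l₂) := fun h4 => h (h4.trans (by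
          exact_mod_cast NL_append_right p U l₁ l₂))
        rw [ind_pos h, ind_pos h3, ind_pos h4, one_mul]
    refine h2.trans ?_
    rw [S_smul, pow_succ, pow_add]
    calc _ ≤ ((1 - 1 / (Fintype.card κ : ℝ)) ^ t * (Fintype.card κ : ℝ) ^ (t * g)) *
          ((1 - 1 / (Fintype.card κ : ℝ)) * (Fintype.card κ : ℝ) ^ g) := by
            apply mul_le_mul ih h1 (S_nonneg _ fun l => ind_nonneg _) (by positivity)
      _ = _ := by ring

theorem decay (hp : ∀ u, p u ≠ 0) (hne : ∃ u, p u ≠ 1) (hU : 4 ≤ U.card) (n : ℕ) :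
    S n (fun l => (√2)⁻¹ ^ NL p U l) ≤ 4 * (Fintype.card κ : ℝ) ^ n *
      Real.exp (-(min (1 / (2 * (Fintype.card κ : ℝ)))
        (Real.log 2 / 2 * (2 / (((Fintype.card κ : ℝ) + 3) * (Fintype.card κ : ℝ) ^ 2))) *
          (n : ℝ) ^ (1 / 3 : ℝ))) := by
  have hq : 0 < Fintype.card κ := Fintype.card_pos_iff.2 ⟨hne.choose⟩
  have hq' : (1 : ℝ) ≤ (Fintype.card κ : ℝ) := by exact_mod_cast hq
  have hmulti := multi hp hne hU
  set q : ℝ := (Fintype.card κ : ℝ) with hqdef
  set c2 : ℝ := 2 / ((q + 3) * q ^ 2) with hc2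
  have hc20 : 0 < c2 := by positivity
  set c := min (1 / (2 * q)) (Real.log 2 / 2 * c2) with hc
  have hlog2 : 0 < Real.log 2 := Real.log_pos (by norm_num)
  rcases Nat.eq_zero_or_pos n with rfl | hn
  · simp only [S, pow_zero, Nat.cast_zero]
    rw [Real.zero_rpow (by norm_num), mul_zero, neg_zero, Real.exp_zero]
    have : (√2 : ℝ)⁻¹ ^ NL p U [] ≤ 1 := by
      apply pow_le_one₀ (by positivity)
      apply inv_le_one_of_one_le₀
      rw [Real.one_le_sqrt]; norm_num
    linarith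
  set a : ℝ := (n : ℝ) ^ (1 / 3 : ℝ) with ha
  have hn1 : (1 : ℝ) ≤ n := by exact_mod_cast hn
  have ha1 : 1 ≤ a := Real.one_le_rpow hn1 (by norm_num)
  have ha3 : a ^ 3 = n := by
    rw [ha, ← Real.rpow_natCast, ← Real.rpow_mul (by positivity)]
    norm_num
  set g : ℕ := ⌈a ^ 2⌉₊ with hg
  have hg1 : a ^ 2 ≤ g := Nat.le_ceil _
  have hg2 : (g : ℝ) ≤ 2 * a ^ 2 := by
    have h1 : (g : ℝ) < a ^ 2 + 1 := Nat.ceil_lt_add_one (by positivity)
    nlinarith
  have hg0 : 1 ≤ g := by
    rw [hg]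
    apply Nat.one_le_iff_ne_zero.2
    intro h
    have : (g : ℝ) = 0 := by rw [hg, h]; simp
    nlinarith
  have hsg : a ≤ √(g : ℝ) := by
    apply Real.le_sqrt_of_sq_le hg1
  set t : ℕ := n / g with ht
  have hnt : n = n % g + t * g := by
    rw [ht, Nat.mod_add_div']
  set w : ℝ := Real.exp (-(Real.log 2 / 2 * (c2 * a))) with hw
  have hm := hmulti g hg0 (c2 * a) (mul_le_mul_of_nonneg_left hsg hc20.le) t
  -- the main estimate
  have h1 : S n (fun l => (√2)⁻¹ ^ NL p U l) ≤ q ^ n * ((1 - 1 / q) ^ t + w) := by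
    rw [hnt, S_append]
    have h2 : ∀ l₁ : List κ, S (t * g) (fun l₂ => (√2)⁻¹ ^ NL p U (l₁ ++ l₂)) ≤
        (1 - 1 / q) ^ t * q ^ (t * g) + q ^ (t * g) * w := by
      intro l₁
      have h3 : S (t * g) (fun l₂ => (√2)⁻¹ ^ NL p U (l₁ ++ l₂)) ≤
          S (t * g) (fun l₂ => ind (¬(c2 * a ≤ NL p U l₂)) + w) := by
        refine S_mono (t * g) fun l₂ _ => ?_
        have h4 : (√2 : ℝ)⁻¹ ^ NL p U (l₁ ++ l₂) ≤ (√2)⁻¹ ^ NL p U l₂ := by
          apply pow_le_pow_of_le_one (by positivity)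
          · apply inv_le_one_of_one_le₀
            rw [Real.one_le_sqrt]; norm_num
          · exact NL_append_right p U l₁ l₂
        refine h4.trans ?_
        by_cases h : c2 * a ≤ NL p U l₂
        · rw [ind_neg (not_not.2 h), zero_add, hw]
          have h5 : (√2 : ℝ)⁻¹ = Real.exp (-(Real.log 2 / 2)) := by
            rw [Real.exp_neg]
            congr 1
            have h7 : Real.exp (Real.log 2 / 2) ^ 2 = 2 := by
              rw [← Real.exp_nat_mul]
              have : ((2 : ℕ) : ℝ) * (Real.log 2 / 2) = Real.log 2 := by push_cast; ring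
              rw [this, Real.exp_log (by norm_num)]
            calc √2 = √(Real.exp (Real.log 2 / 2) ^ 2) := by rw [h7]
              _ = _ := Real.sqrt_sq (Real.exp_pos _).le
          rw [h5, ← Real.exp_nat_mul]
          apply Real.exp_le_exp.2
          have h6 : Real.log 2 / 2 * (c2 * a) ≤ Real.log 2 / 2 * (NL p U l₂ : ℝ) :=
            mul_le_mul_of_nonneg_left h (by positivity)
          linarith
        · rw [ind_pos h]
          have h5 : (√2 : ℝ)⁻¹ ^ NL p U l₂ ≤ 1 := by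
            apply pow_le_one₀ (by positivity)
            apply inv_le_one_of_one_le₀
            rw [Real.one_le_sqrt]; norm_num
          have h6 : 0 ≤ w := (Real.exp_pos _).le
          linarith
      rw [S_add, S_const] at h3
      exact h3.trans (by linarith)
    refine (S_mono (n % g) fun l₁ _ => h2 l₁).trans (le_of_eq ?_)
    rw [S_const, pow_add]
    ring
  refine h1.trans ?_
  have hcle1 : c ≤ 1 / (2 * q) := min_le_left _ _
  have hcle2 : c ≤ Real.log 2 / 2 * c2 := min_le_right _ _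
  have h2 : w ≤ Real.exp (-(c * a)) := by
    rw [hw]
    apply Real.exp_le_exp.2
    have := mul_le_mul_of_nonneg_right hcle2 (show 0 ≤ a by linarith)
    linarith
  have h3 : (1 - 1 / q) ^ t ≤ 3 * Real.exp (-(c * a)) := by
    have h4 : (1 - 1 / q) ≤ Real.exp (-(1 / q)) := Real.one_sub_le_exp_neg _
    have h0 : 0 ≤ 1 - 1 / q := by
      rw [sub_nonneg, div_le_one (by linarith)]
      exact hq'
    have h5 : (1 - 1 / q) ^ t ≤ Real.exp (-(1 / q)) ^ t := pow_le_pow_left₀ h0 h4 t
    refine h5.trans ?_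
    rw [← Real.exp_nat_mul]
    have ht1 : a / 2 - 1 ≤ t := by
      have h6 : n < (t + 1) * g := by
        rw [ht, Nat.add_mul, one_mul]
        exact Nat.lt_div_mul_add (by omega)
      have h7 : (n : ℝ) < (t + 1) * g := by exact_mod_cast h6
      have h8 : ((t : ℝ) + 1) * g ≤ (t + 1) * (2 * a ^ 2) :=
        mul_le_mul_of_nonneg_left hg2 (by positivity)
      have h9 : a ^ 2 * a < a ^ 2 * (2 * (t + 1)) := by
        calc a ^ 2 * a = n := by rw [← ha3]; ring
          _ < (t + 1) * g := h7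
          _ ≤ (t + 1) * (2 * a ^ 2) := h8
          _ = _ := by ring
      have h10 := lt_of_mul_lt_mul_left h9 (by positivity)
      linarith
    have h6 : (t : ℝ) * -(1 / q) ≤ 1 + -(c * a) := by
      have h7 : (a / 2 - 1) * (1 / q) ≤ t * (1 / q) :=
        mul_le_mul_of_nonneg_right ht1 (by positivity)
      have h8 : c * a ≤ 1 / (2 * q) * a := mul_le_mul_of_nonneg_right hcle1 (by linarith)
      have h9 : (a / 2 - 1) * (1 / q) = 1 / (2 * q) * a - 1 / q := by
        field_simp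
      have h10 : 1 / q ≤ 1 := by
        rw [div_le_one (by linarith)]
        exact hq'
      linarith
    refine (Real.exp_le_exp.2 h6).trans ?_
    rw [Real.exp_add]
    apply mul_le_mul_of_nonneg_right _ (Real.exp_pos _).le
    have := Real.exp_one_lt_d9
    linarith
  calc q ^ n * ((1 - 1 / q) ^ t + w) ≤ q ^ n * (3 * Real.exp (-(c * a)) + Real.exp (-(c * a))) := by
        apply mul_le_mul_of_nonneg_left _ (by positivity)
        linarith
    _ = _ := by ring

end

/-- the constant for alphabets with `q` letters and four special letters -/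
noncomputable def c0 (q : ℝ) : ℝ := min (1 / (2 * q)) (Real.log 2 / 2 * (2 / ((q + 3) * q ^ 2)))

theorem c0_pos {q : ℝ} (hq : 1 ≤ q) : 0 < c0 q := by
  have hlog2 : 0 < Real.log 2 := Real.log_pos (by norm_num)
  unfold c0
  apply lt_min <;> positivity

theorem core {κ : Type} [Fintype κ] [DecidableEq κ] {A B : κ → ℂ} {U : Finset κ} {A₀ B₀ μ θ : ℂ}
    (h : Bits A B U A₀ B₀ μ θ) (hk : ∃ k, Transcendental ℚ (A k)) (V : Submodule QB ℂ)
    [FiniteDimensional QB V] (n : ℕ) (y : ℂ) :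
    S n (fun l => ind (val A B l y ∈ Lt ⊔ V)) ≤
      8 * 2 ^ finrank QB V * (Fintype.card κ : ℝ) ^ n *
        Real.exp (-(c0 (Fintype.card κ) * (n : ℝ) ^ (1 / 3 : ℝ))) := by
  obtain ⟨k, hk⟩ := hk
  obtain ⟨W, hW1, hW2⟩ := exists_val hk
  have h1 := h.main V W.valuation hW1 n y
  have hp : ∀ u, (fun u => W.valuation (A u)) u ≠ 0 := fun u =>
    (Valuation.ne_zero_iff _).2 (h.hA u)
  have h2 := decay (p := fun u => W.valuation (A u)) (U := U) hp ⟨k, hW2.ne'⟩ h.card_U.ge n
  simp only [nlev_eq] at h1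
  refine h1.trans ?_
  calc 2 ^ (finrank QB V + 1) * S n (fun l => (√2)⁻¹ ^ NL (fun u => W.valuation (A u)) U l)
      ≤ 2 ^ (finrank QB V + 1) * _ := mul_le_mul_of_nonneg_left h2 (by positivity)
    _ = _ := by
        unfold c0
        rw [pow_succ]
        ring

end Pool.Agent.E8helper48.RW
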