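import Pool.Agent.E8helper48.RW.Cnt

/-!
# Anticoncentration of random products in an ordered group
-/

set_option autoImplicit false
set_option linter.unusedSectionVars false

namespace Pool.Agent.E8helper48.RW

open MeasureTheory

/-- `C(K, K/2) ^ 2 (K + 1) ≤ 4 ^ K` for even `K` -/
theorem central_sq (n : ℕ) : (Nat.centralBinom n) ^ 2 * (2 * n + 1) ≤ 16 ^ n := by
  induction n with
  | zero => simp
  | succ n ih =>
    have h1 := Nat.succ_mul_centralBinom_succ n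
    have h2 : (n + 1) ^ 2 * ((Nat.centralBinom (n + 1)) ^ 2 * (2 * (n + 1) + 1)) ≤
        (n + 1) ^ 2 * 16 ^ (n + 1) := by
      calc (n + 1) ^ 2 * ((Nat.centralBinom (n + 1)) ^ 2 * (2 * (n + 1) + 1))
          = ((n + 1) * Nat.centralBinom (n + 1)) ^ 2 * (2 * n + 3) := by ring
        _ = (2 * (2 * n + 1) * Nat.centralBinom n) ^ 2 * (2 * n + 3) := by rw [h1]
        _ = (4 * (2 * n + 1) * (2 * n + 3)) * (Nat.centralBinom n ^ 2 * (2 * n + 1)) := by ring
        _ ≤ (4 * (2 * n + 1) * (2 * n + 3)) * 16 ^ n := Nat.mul_le_mul_left _ ih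
        _ ≤ ((n + 1) ^ 2 * 16) * 16 ^ n := by
            apply Nat.mul_le_mul_right
            nlinarith
        _ = _ := by ring
    exact Nat.le_of_mul_le_mul_left h2 (by positivity)

theorem choose_sq (K j : ℕ) : (K.choose j) ^ 2 * (K + 1) ≤ 4 ^ K := by
  have h0 := Nat.choose_le_middle j K
  have h1 : (K.choose j) ^ 2 * (K + 1) ≤ (K.choose (K / 2)) ^ 2 * (K + 1) :=
    Nat.mul_le_mul_right _ (Nat.pow_le_pow_left h0 2)
  refine h1.trans ?_
  rcases Nat.even_or_odd' K with ⟨n, rfl | rfl⟩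
  · rw [Nat.mul_div_cancel_left n (by norm_num), pow_mul]
    exact central_sq n
  · have e1 : (2 * n + 1) / 2 = n := by omega
    rw [e1]
    have h2 : 2 * (2 * n + 1).choose n = Nat.centralBinom (n + 1) := by
      have e2 : Nat.centralBinom (n + 1) = (2 * n + 1).choose n + (2 * n + 1).choose (n + 1) := by
        rw [Nat.centralBinom_eq_two_mul_choose, show 2 * (n + 1) = (2 * n + 1) + 1 by ring,
          Nat.choose_succ_succ]
      have e3 : (2 * n + 1).choose (n + 1) = (2 * n + 1).choose n := Nat.choose_symm_half n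
      omega
    have h3 := central_sq (n + 1)
    rw [← h2] at h3
    have h4 : 4 ^ (2 * n + 1) = 4 * 16 ^ n := by
      rw [pow_succ, pow_mul]; norm_num; ring
    rw [h4]
    have h5 : 16 ^ (n + 1) = 16 * 16 ^ n := by ring
    rw [h5] at h3
    have h6 : (2 * (2 * n + 1).choose n) ^ 2 = 4 * (2 * n + 1).choose n ^ 2 := by ring
    rw [h6] at h3
    nlinarith [Nat.zero_le ((2 * n + 1).choose n ^ 2)]

theorem choose_le_real (K j : ℕ) : (K.choose j : ℝ) / 2 ^ K ≤ (√((K : ℝ) + 1))⁻¹ := by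
  have h1 := choose_sq K j
  have h2 : ((K.choose j : ℝ)) ^ 2 * ((K : ℝ) + 1) ≤ 4 ^ K := by exact_mod_cast h1
  have h3 : 0 < √((K : ℝ) + 1) := Real.sqrt_pos.2 (by positivity)
  rw [div_le_iff₀ (by positivity), inv_mul_eq_div, le_div_iff₀ h3]
  refine (pow_le_pow_iff_left₀ (by positivity) (by positivity) two_ne_zero).1 ?_
  rw [mul_pow, Real.sq_sqrt (by positivity)]
  calc _ ≤ (4 : ℝ) ^ K := h2
    _ = ((2 : ℝ) ^ K) ^ 2 := by rw [← pow_mul, mul_comm K 2, pow_mul]; norm_num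

theorem amgm (K : ℕ) (lam : ℝ) (hl : 0 < lam) :
    (√((K : ℝ) + 1))⁻¹ ≤ (lam / ((K : ℝ) + 1) + lam⁻¹) / 2 := by
  have h3 : 0 < √((K : ℝ) + 1) := Real.sqrt_pos.2 (by positivity)
  set s := (√((K : ℝ) + 1))⁻¹ with hs
  have h4 : ((K : ℝ) + 1)⁻¹ = s ^ 2 := by
    rw [hs, inv_pow, Real.sq_sqrt (by positivity)]
  rw [div_eq_mul_inv lam, h4]
  have h5 : 0 ≤ (lam * s - 1) ^ 2 := sq_nonneg _
  have h6 : lam * lam⁻¹ = 1 := mul_inv_cancel₀ hl.ne'
  have h7 : 0 ≤ (lam * s ^ 2 + lam⁻¹) / 2 - s := by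
    have : (lam * s ^ 2 + lam⁻¹) / 2 - s = lam⁻¹ * (lam * s - 1) ^ 2 / 2 := by
      field_simp
      ring
    rw [this]
    positivity
  linarith

section

variable {κ : Type} [Fintype κ] [DecidableEq κ]

/-- the number of letters among `i₀, i₁` -/
def Kc (i₀ i₁ : κ) : List κ → ℕ
  | [] => 0
  | u :: l => if u = i₀ ∨ u = i₁ then Kc i₀ i₁ l + 1 else Kc i₀ i₁ l

theorem sum_two {i₀ i₁ : κ} (h : i₀ ≠ i₁) (f : κ → ℝ) (g : κ → ℝ)
    (hf : ∀ u, ¬(u = i₀ ∨ u = i₁) → f u = g u) (h01 : f i₀ + f i₁ = g i₀ + g i₁) :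
    ∑ u, f u = ∑ u, g u := by
  have h1 : ∀ F : κ → ℝ, ∑ u, F u = (F i₀ + F i₁) + ∑ u ∈ ({i₀, i₁} : Finset κ)ᶜ, F u := by
    intro F
    rw [← Finset.sum_add_sum_compl ({i₀, i₁} : Finset κ), Finset.sum_pair h]
  rw [h1 f, h1 g, h01]
  congr 1
  refine Finset.sum_congr rfl fun u hu => hf u ?_
  simpa using hu

theorem S_pow_Kc {i₀ i₁ : κ} (h : i₀ ≠ i₁) (t : ℝ) (d : ℕ) :
    S d (fun l => t ^ Kc i₀ i₁ l) = ((Fintype.card κ : ℝ) - 2 + 2 * t) ^ d := by
  induction d with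
  | zero => simp [S, Kc]
  | succ d ih =>
    rw [S_succ]
    have h1 : ∑ u, S d (fun l => t ^ Kc i₀ i₁ (u :: l)) =
        ∑ u : κ, (if u = i₀ ∨ u = i₁ then t else 1) * S d (fun l => t ^ Kc i₀ i₁ l) := by
      refine Finset.sum_congr rfl fun u _ => ?_
      rw [← S_smul]
      refine S_congr d fun l _ => ?_
      rw [Kc]
      split_ifs
      · rw [pow_succ, mul_comm]
      · rw [one_mul]
    rw [h1, ← Finset.sum_mul, ih, pow_succ, mul_comm]
    congr 1
    rw [sum_two h _ (fun u => 1 + (if u = i₀ ∨ u = i₁ then t - 1 else 0))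
      (fun u hu => by simp [hu]) (by simp), Finset.sum_add_distrib]
    have h2 : ∑ u : κ, (if u = i₀ ∨ u = i₁ then t - 1 else 0) = 2 * (t - 1) := by
      rw [← Finset.sum_filter, Finset.sum_const]
      have h3 : (Finset.univ.filter fun u => u = i₀ ∨ u = i₁) = {i₀, i₁} := by
        ext u; simp
      rw [h3, Finset.card_pair h]
      simp
    rw [h2]
    simp
    ring

theorem S_cont (d : ℕ) : ∀ F : List κ → ℝ → ℝ, (∀ l, Continuous (F l)) →
    Continuous fun t => S d (fun l => F l t) := by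
  induction d with
  | zero => intro F hF; exact hF []
  | succ d ih =>
    intro F hF
    simp only [S_succ]
    exact continuous_finsetSum _ fun u _ => ih (fun l => F (u :: l)) fun l => hF _

theorem S_integral (d : ℕ) : ∀ F : List κ → ℝ → ℝ, (∀ l, Continuous (F l)) →
    S d (fun l => ∫ t in (0 : ℝ)..1, F l t) = ∫ t in (0 : ℝ)..1, S d (fun l => F l t) := by
  induction d with
  | zero => intro F hF; rfl
  | succ d ih =>
    intro F hF
    simp only [S_succ]
    rw [intervalIntegral.integral_finsetSum]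
    · exact Finset.sum_congr rfl fun u _ => ih (fun l => F (u :: l)) fun l => hF _
    · intro u _
      exact (S_cont d (fun l => F (u :: l)) fun l => hF _).intervalIntegrable _ _

theorem S_inv_Kc {i₀ i₁ : κ} (h : i₀ ≠ i₁) (d : ℕ) :
    S d (fun l => ((Kc i₀ i₁ l : ℝ) + 1)⁻¹) ≤ (Fintype.card κ : ℝ) ^ (d + 1) / (2 * (d + 1)) := by
  have h1 : ∀ l : List κ, ((Kc i₀ i₁ l : ℝ) + 1)⁻¹ = ∫ t in (0 : ℝ)..1, t ^ Kc i₀ i₁ l := by
    intro l
    rw [integral_pow]
    simp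
  simp only [h1]
  rw [S_integral d (fun l t => t ^ Kc i₀ i₁ l) fun l => continuous_pow _]
  simp only [S_pow_Kc h]
  set q : ℝ := (Fintype.card κ : ℝ) with hq
  have h2 : ∀ t ∈ Set.uIcc (0 : ℝ) 1, HasDerivAt
      (fun t => (q - 2 + 2 * t) ^ (d + 1) / (2 * (d + 1))) ((q - 2 + 2 * t) ^ d) t := by
    intro t _
    have h3 : HasDerivAt (fun t : ℝ => q - 2 + 2 * t) 2 t := by
      simpa using ((hasDerivAt_id t).const_mul 2).const_add (q - 2)
    have h4 := (h3.pow (d + 1)).div_const (2 * (d + 1))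
    have h6 : (2 * ((d : ℝ) + 1)) ≠ 0 := by positivity
    have h5 : ((d + 1 : ℕ) : ℝ) * (q - 2 + 2 * t) ^ (d + 1 - 1) * 2 / (2 * ((d : ℝ) + 1)) =
        (q - 2 + 2 * t) ^ d := by
      rw [div_eq_iff h6, Nat.add_sub_cancel]
      push_cast
      ring
    rw [h5] at h4
    exact h4
  rw [intervalIntegral.integral_eq_sub_of_hasDerivAt h2 (by
    apply Continuous.intervalIntegrable
    fun_prop)]
  have hq2 : (2 : ℝ) ≤ q := by
    rw [hq]
    have h5 : 2 ≤ Fintype.card κ := by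
      have h6 := Finset.card_le_univ ({i₀, i₁} : Finset κ)
      rwa [Finset.card_pair h] at h6
    exact_mod_cast h5
  have h7 : 0 ≤ (q - 2 + 2 * 0) ^ (d + 1) / (2 * ((d : ℝ) + 1)) := by
    apply div_nonneg (pow_nonneg (by linarith) _) (by positivity)
  have h8 : (q - 2 + 2 * 1) = q := by ring
  rw [h8]
  linarith

/-! ### the number of words with given product -/

variable {Γ : Type} [LinearOrderedCommGroupWithZero Γ]

/-- the product of a word -/
def pr (p : κ → Γ) : List κ → Γ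
  | [] => 1
  | u :: l => p u * pr p l

/-- the number of words with product `γ` -/
noncomputable def MM (p : κ → Γ) (d : ℕ) (γ : Γ) : ℝ := S d (fun l => ind (pr p l = γ))

theorem MM_succ {p : κ → Γ} (hp : ∀ u, p u ≠ 0) (d : ℕ) (γ : Γ) :
    MM p (d + 1) γ = ∑ u, MM p d (γ / p u) := by
  unfold MM
  rw [S_succ]
  refine Finset.sum_congr rfl fun u _ => S_congr d fun l _ => ?_
  congr 1
  rw [pr, eq_div_iff (hp u), mul_comm]

open Classical in
/-- the number of words with product `γ` in the class of a word -/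
noncomputable def GG (p : κ → Γ) (i₀ i₁ : κ) : List κ → Γ → ℕ
  | [], γ => if γ = 1 then 1 else 0
  | u :: l, γ => if u = i₀ ∨ u = i₁ then GG p i₀ i₁ l (γ / p i₀) + GG p i₀ i₁ l (γ / p i₁)
      else GG p i₀ i₁ l (γ / p u)

theorem MM_eq {p : κ → Γ} (hp : ∀ u, p u ≠ 0) {i₀ i₁ : κ} (h : i₀ ≠ i₁) (d : ℕ) : ∀ γ : Γ,
    MM p d γ = S d (fun l => (GG p i₀ i₁ l γ : ℝ) / 2 ^ Kc i₀ i₁ l) := by
  induction d with
  | zero =>
    intro γ
    simp only [MM, S, pr, GG, Kc, pow_zero, div_one]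
    by_cases hγ : γ = 1
    · rw [hγ, ind_pos rfl, if_pos rfl, Nat.cast_one]
    · rw [ind_neg (fun h => hγ h.symm), if_neg hγ, Nat.cast_zero]
  | succ d ih =>
    intro γ
    rw [MM_succ hp, S_succ]
    apply sum_two h
    · intro u hu
      rw [ih]
      refine S_congr d fun l _ => ?_
      rw [GG, if_neg hu, Kc, if_neg hu]
    · have h1 : ∀ u, (u = i₀ ∨ u = i₁) → S d (fun l => (GG p i₀ i₁ (u :: l) γ : ℝ) /
          2 ^ Kc i₀ i₁ (u :: l)) = (1 / 2) * (MM p d (γ / p i₀) + MM p d (γ / p i₁)) := by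
        intro u hu
        rw [ih, ih, ← S_add, ← S_smul]
        refine S_congr d fun l _ => ?_
        rw [GG, if_pos hu, Kc, if_pos hu, pow_succ]
        push_cast
        field_simp
      rw [h1 i₀ (Or.inl rfl), h1 i₁ (Or.inr rfl)]
      ring

theorem pow_ne_one_of {ρ : Γ} (_h0 : ρ ≠ 0) (h1 : ρ ≠ 1) (k : ℕ) (hk : k ≠ 0) : ρ ^ k ≠ 1 := by
  rcases lt_or_gt_of_ne h1 with h | h
  · exact (pow_lt_one₀ zero_le h hk).ne
  · exact (one_lt_pow₀ h hk).ne'

theorem GG_struct {p : κ → Γ} (hp : ∀ u, p u ≠ 0) {i₀ i₁ : κ} (hne : p i₀ ≠ p i₁) (l : List κ) :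
    ∃ β : Γ, β ≠ 0 ∧ (∀ j : ℕ, GG p i₀ i₁ l (β * (p i₁ / p i₀) ^ j) = (Kc i₀ i₁ l).choose j) ∧
      ∀ γ, (∀ j : ℕ, γ ≠ β * (p i₁ / p i₀) ^ j) → GG p i₀ i₁ l γ = 0 := by
  set ρ := p i₁ / p i₀ with hρ
  have hρ0 : ρ ≠ 0 := div_ne_zero (hp _) (hp _)
  have hρ1 : ρ ≠ 1 := fun h => hne ((div_eq_one_iff_eq (hp _)).1 h).symm
  induction l with
  | nil =>
    refine ⟨1, one_ne_zero, fun j => ?_, fun γ hγ => ?_⟩
    · rw [GG, Kc, one_mul]
      rcases Nat.eq_zero_or_pos j with rfl | hj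
      · simp
      · rw [if_neg (pow_ne_one_of hρ0 hρ1 j hj.ne'), Nat.choose_eq_zero_of_lt hj]
    · rw [GG, if_neg]
      intro h
      apply hγ 0
      rw [h]; simp
  | cons u l ih =>
    obtain ⟨β, hβ, h1, h2⟩ := ih
    by_cases hu : u = i₀ ∨ u = i₁
    · refine ⟨p i₀ * β, mul_ne_zero (hp _) hβ, fun j => ?_, fun γ hγ => ?_⟩
      · rw [GG, if_pos hu, Kc, if_pos hu]
        have e1 : p i₀ * β * ρ ^ j / p i₀ = β * ρ ^ j := by
          rw [mul_assoc, mul_div_cancel_left₀ _ (hp _)]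
        rw [e1, h1]
        rcases Nat.eq_zero_or_pos j with rfl | hj
        · rw [h2]
          · simp
          · intro j hj
            rw [pow_zero, mul_one] at hj
            have h3 : p i₀ * β = p i₁ * (β * ρ ^ j) := by
              rw [← hj, mul_div_cancel₀ _ (hp _)]
            have h4 : ρ ^ (j + 1) = 1 := by
              have h5 : p i₁ = ρ * p i₀ := by rw [hρ, div_mul_cancel₀ _ (hp _)]
              rw [h5] at h3
              have h6 : p i₀ * β * 1 = p i₀ * β * (ρ ^ (j + 1)) := by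
                rw [mul_one, pow_succ]
                calc p i₀ * β = ρ * p i₀ * (β * ρ ^ j) := h3
                  _ = _ := by rw [mul_comm ρ, mul_assoc, mul_assoc]; congr 1; rw [← mul_assoc, mul_comm ρ β, mul_assoc, mul_comm ρ]
              exact (mul_left_cancel₀ (mul_ne_zero (hp _) hβ) h6).symm
            exact pow_ne_one_of hρ0 hρ1 (j + 1) (Nat.succ_ne_zero j) h4
        · obtain ⟨k, rfl⟩ : ∃ k, j = k + 1 := ⟨j - 1, by omega⟩
          have e2 : p i₀ * β * ρ ^ (k + 1) / p i₁ = β * ρ ^ k := by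
            have h5 : ρ * p i₀ = p i₁ := by rw [hρ, div_mul_cancel₀ _ (hp _)]
            rw [div_eq_iff (hp _), ← h5, pow_succ]
            rw [mul_comm (p i₀) β, mul_assoc, mul_assoc, mul_comm (p i₀), mul_assoc]
          rw [e2, h1, Nat.choose_succ_succ, add_comm]
      · rw [GG, if_pos hu, h2, h2]
        · intro j hj
          have h3 : γ = p i₀ * β * ρ ^ (j + 1) := by
            rw [div_eq_iff (hp _)] at hj
            have h5 : ρ * p i₀ = p i₁ := by rw [hρ, div_mul_cancel₀ _ (hp _)]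
            rw [hj, ← h5, pow_succ]
            rw [mul_comm (p i₀) β, mul_assoc, mul_assoc, mul_comm (p i₀), mul_assoc]
          exact hγ _ h3
        · intro j hj
          have h3 : γ = p i₀ * β * ρ ^ j := by
            rw [div_eq_iff (hp _)] at hj
            rw [hj, mul_comm, mul_assoc]
          exact hγ _ h3
    · refine ⟨p u * β, mul_ne_zero (hp _) hβ, fun j => ?_, fun γ hγ => ?_⟩
      · rw [GG, if_neg hu, Kc, if_neg hu, mul_assoc, mul_div_cancel_left₀ _ (hp _), h1]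
      · rw [GG, if_neg hu, h2]
        intro j hj
        rw [div_eq_iff (hp _)] at hj
        exact hγ j (by rw [hj, mul_comm, mul_assoc])

theorem GG_le {p : κ → Γ} (hp : ∀ u, p u ≠ 0) {i₀ i₁ : κ} (hne : p i₀ ≠ p i₁) (l : List κ) (γ : Γ) :
    (GG p i₀ i₁ l γ : ℝ) / 2 ^ Kc i₀ i₁ l ≤ (√((Kc i₀ i₁ l : ℝ) + 1))⁻¹ := by
  obtain ⟨β, hβ, h1, h2⟩ := GG_struct hp hne l
  by_cases h : ∃ j : ℕ, γ = β * (p i₁ / p i₀) ^ j
  · obtain ⟨j, rfl⟩ := h
    rw [h1]
    exact choose_le_real _ j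
  · push Not at h
    rw [h2 γ h]
    simp

/-- **Anticoncentration.** -/
theorem MM_le {p : κ → Γ} (hp : ∀ u, p u ≠ 0) {i₀ i₁ : κ} (hne : p i₀ ≠ p i₁) (d : ℕ) (γ : Γ) :
    MM p d γ ≤ ((Fintype.card κ : ℝ) + 2) / 4 * ((Fintype.card κ : ℝ) ^ d / √((d : ℝ) + 1)) := by
  have h : i₀ ≠ i₁ := fun h => hne (by rw [h])
  rw [MM_eq hp h]
  set lam := √((d : ℝ) + 1) with hlam
  have hl : 0 < lam := Real.sqrt_pos.2 (by positivity)
  have hl2 : lam ^ 2 = (d : ℝ) + 1 := Real.sq_sqrt (by positivity)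
  have h1 : S d (fun l => (GG p i₀ i₁ l γ : ℝ) / 2 ^ Kc i₀ i₁ l) ≤
      S d (fun l => (lam / 2) * ((Kc i₀ i₁ l : ℝ) + 1)⁻¹ + lam⁻¹ / 2) := by
    refine S_mono d fun l _ => ?_
    refine (GG_le hp hne l γ).trans ((amgm _ lam hl).trans (le_of_eq ?_))
    ring
  refine h1.trans ?_
  rw [S_add, S_smul, S_const]
  have h2 := S_inv_Kc h d
  set q : ℝ := (Fintype.card κ : ℝ) with hq
  have hq0 : 0 ≤ q := by rw [hq]; positivity
  calc lam / 2 * S d (fun l => ((Kc i₀ i₁ l : ℝ) + 1)⁻¹) + q ^ d * (lam⁻¹ / 2)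
      ≤ lam / 2 * (q ^ (d + 1) / (2 * (d + 1))) + q ^ d * (lam⁻¹ / 2) := by
        gcongr
    _ = (q + 2) / 4 * (q ^ d / lam) := by
        rw [← hl2]
        field_simp
        ring

end

end Pool.Agent.E8helper48.RW
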