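import Pool.Agent.E8helper48.RW.Final

/-!
# Random words of arbitrary affine maps
-/

set_option autoImplicit false
set_option linter.unusedSectionVars false

namespace Pool.Agent.E8helper48.RW

open Module
open Pool.Agent.H301R2.SSE (QB mem_QB Lt Lt_alg Lt_log)

section

variable {ι : Type} [Fintype ι] [DecidableEq ι]

theorem val_eq (a b : ι → ℂ) (l : List ι) (y : ℂ) : val a b l y = PP a l * y + val a b l 0 := by
  have h1 := val_add a b l 0 y
  rw [zero_add] at h1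
  rw [h1]; ring

/-- a word of blocks as a word -/
def flat (l : List (Fin 5 → ι)) : List ι := (l.map List.ofFn).flatten

theorem val_flat (a b : ι → ℂ) (l : List (Fin 5 → ι)) : ∀ y : ℂ,
    val (fun w : Fin 5 → ι => PP a (List.ofFn w)) (fun w => val a b (List.ofFn w) 0) l y =
      val a b (flat l) y := by
  induction l with
  | nil => intro y; rfl
  | cons w l ih =>
    intro y
    have h1 : flat (w :: l) = List.ofFn w ++ flat l := by
      unfold flat; simp
    rw [h1, val_append, ← ih, val, ← val_eq]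

theorem S_flat (m : ℕ) : ∀ F : List ι → ℝ,
    S (5 * m) F = S m (fun l : List (Fin 5 → ι) => F (flat l)) := by
  induction m with
  | zero => intro F; simp [S, flat]
  | succ m ih =>
    intro F
    rw [Nat.mul_succ, Nat.add_comm, S_append, S_ofFn 5, S_succ]
    refine Finset.sum_congr rfl fun w _ => ?_
    rw [ih]
    refine S_congr m fun l _ => ?_
    simp [flat]

/-- the block with two free bits: case of a transcendental product -/
def eb1 (i j : ι) (x : Bool × Bool) : Fin 5 → ι :=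
  ![if x.2 then j else i, if x.2 then i else j, if x.1 then j else i, if x.1 then i else j, i]

/-- the block with two free bits: case of an algebraic product -/
def eb2 (i j k : ι) (x : Bool × Bool) : Fin 5 → ι :=
  ![if x.2 then j else i, if x.2 then i else j, k, if x.1 then j else i, if x.1 then i else j]

theorem eb1_inj {i j : ι} (h : i ≠ j) : Function.Injective (eb1 i j) := by
  rintro ⟨x1, x2⟩ ⟨y1, y2⟩ hxy
  have h0 := congrFun hxy 0
  have h2 := congrFun hxy 2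
  simp only [eb1, Matrix.cons_val_zero, Matrix.cons_val] at h0 h2
  rcases x1 <;> rcases x2 <;> rcases y1 <;> rcases y2 <;> simp_all [Ne.symm h]

theorem eb2_inj {i j : ι} (k : ι) (h : i ≠ j) : Function.Injective (eb2 i j k) := by
  rintro ⟨x1, x2⟩ ⟨y1, y2⟩ hxy
  have h0 := congrFun hxy 0
  have h2 := congrFun hxy 3
  simp only [eb2, Matrix.cons_val_zero, Matrix.cons_val] at h0 h2
  rcases x1 <;> rcases x2 <;> rcases y1 <;> rcases y2 <;> simp_all [Ne.symm h]

theorem transc_mul_alg {c t : ℂ} (hc : IsAlgebraic ℚ c) (hc0 : c ≠ 0) (ht : Transcendental ℚ t) :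
    Transcendental ℚ (c * t) := by
  intro h
  apply ht
  have h1 : t = c⁻¹ * (c * t) := by rw [← mul_assoc, inv_mul_cancel₀ hc0, one_mul]
  rw [h1]
  exact hc.inv.mul h

theorem exists_bits (a b : ι → ℂ) (ha : ∀ i, a i ≠ 0) (hk : ∃ k, Transcendental ℚ (a k))
    (hc : ∃ i j, (a i - 1) * b j ≠ (a j - 1) * b i) :
    ∃ (U : Finset (Fin 5 → ι)) (A₀ B₀ μ θ : ℂ),
      Bits (fun w : Fin 5 → ι => PP a (List.ofFn w)) (fun w => val a b (List.ofFn w) 0) U A₀ B₀ μ θ := by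
  classical
  obtain ⟨k, hk⟩ := hk
  obtain ⟨i, j, hij⟩ := hc
  have hne : i ≠ j := by
    rintro rfl
    exact hij rfl
  have hlam : (a i - 1) * b j - (a j - 1) * b i ≠ 0 := sub_ne_zero.2 hij
  have hPP : ∀ w : Fin 5 → ι, PP a (List.ofFn w) ≠ 0 := fun w => PP_ne ha _
  by_cases hcc : IsAlgebraic ℚ (a i * a j)
  · refine ⟨Finset.univ.image (eb2 i j k), PP a (List.ofFn (eb2 i j k (false, false))),
      val a b (List.ofFn (eb2 i j k (false, false))) 0, (a i - 1) * b j - (a j - 1) * b i,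
      (a i * a j) * a k, hPP, transc_mul_alg hcc (mul_ne_zero (ha _) (ha _)) hk, hlam,
      eb2 i j k, eb2_inj k hne, rfl, fun x => ?_, fun x => ?_⟩
    · rcases x with ⟨_ | _, _ | _⟩ <;> simp [eb2, PP, -mul_eq_mul_left_iff, -mul_eq_mul_right_iff] <;> ring
    · rcases x with ⟨_ | _, _ | _⟩ <;> simp [eb2, val] <;> ring
  · refine ⟨Finset.univ.image (eb1 i j), PP a (List.ofFn (eb1 i j (false, false))),
      val a b (List.ofFn (eb1 i j (false, false))) 0, a i * ((a i - 1) * b j - (a j - 1) * b i),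
      a i * a j, hPP, hcc, mul_ne_zero (ha _) hlam,
      eb1 i j, eb1_inj hne, rfl, fun x => ?_, fun x => ?_⟩
    · rcases x with ⟨_ | _, _ | _⟩ <;> simp [eb1, PP, -mul_eq_mul_left_iff, -mul_eq_mul_right_iff] <;> ring
    · rcases x with ⟨_ | _, _ | _⟩ <;> simp [eb1, val] <;> ring

/-- **Random words of affine maps.** -/
theorem affine (a b : ι → ℂ) (ha : ∀ i, a i ≠ 0) (hk : ∃ k, Transcendental ℚ (a k))
    (hc : ∃ i j, (a i - 1) * b j ≠ (a j - 1) * b i) (V : Submodule QB ℂ)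
    [FiniteDimensional QB V] (n : ℕ) (y : ℂ) :
    S n (fun l => ind (val a b l y ∈ Lt ⊔ V)) ≤
      16 * 2 ^ finrank QB V * (Fintype.card ι : ℝ) ^ n *
        Real.exp (-(c0 ((Fintype.card ι : ℝ) ^ 5) / 2 * (n : ℝ) ^ (1 / 3 : ℝ))) := by
  obtain ⟨U, A₀, B₀, μ, θ, hB⟩ := exists_bits a b ha hk hc
  obtain ⟨k, hk⟩ := hk
  have hq : 0 < Fintype.card ι := Fintype.card_pos_iff.2 ⟨k⟩
  have hq' : (1 : ℝ) ≤ (Fintype.card ι : ℝ) := by exact_mod_cast hq
  have hk5 : ∃ w : Fin 5 → ι, Transcendental ℚ (PP a (List.ofFn w)) := by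
    refine ⟨fun _ => k, ?_⟩
    have h1 : PP a (List.ofFn (fun _ : Fin 5 => k)) = a k ^ 5 := by
      simp [PP]; ring
    rw [h1]
    exact hk.pow (by norm_num)
  set q : ℝ := (Fintype.card ι : ℝ) with hqdef
  set m := n / 5 with hm
  have hn : n = n % 5 + 5 * m := by rw [hm]; omega
  have h1 : S n (fun l => ind (val a b l y ∈ Lt ⊔ V)) ≤ q ^ (n % 5) *
      (8 * 2 ^ finrank QB V * (q ^ 5) ^ m * Real.exp (-(c0 (q ^ 5) * (m : ℝ) ^ (1 / 3 : ℝ)))) := by
    nth_rewrite 1 [hn]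
    rw [S_append, ← S_const]
    refine S_mono _ fun l₁ _ => ?_
    simp only [val_append]
    rw [S_flat]
    have h2 := core hB hk5 V m (val a b l₁ y)
    simp only [val_flat] at h2
    have h3 : (Fintype.card (Fin 5 → ι) : ℝ) = q ^ 5 := by simp [hqdef]
    rw [h3] at h2
    exact h2
  refine h1.trans ?_
  have hc0 : 0 < c0 (q ^ 5) := c0_pos (one_le_pow₀ hq')
  have hc1 : c0 (q ^ 5) ≤ 1 / 2 := by
    unfold c0
    refine (min_le_left _ _).trans ?_
    have h5 : (1 : ℝ) ≤ q ^ 5 := one_le_pow₀ hq'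
    rw [div_le_div_iff₀ (by positivity) (by norm_num)]
    linarith
  have h4 : (n : ℝ) ^ (1 / 3 : ℝ) ≤ 2 * (m : ℝ) ^ (1 / 3 : ℝ) + 2 := by
    have h5 : (n : ℝ) ≤ (2 * (m : ℝ) ^ (1 / 3 : ℝ) + 2) ^ 3 := by
      have h6 : (n : ℝ) ≤ 5 * m + 4 := by
        have : n ≤ 5 * m + 4 := by omega
        exact_mod_cast this
      have h7 : ((m : ℝ) ^ (1 / 3 : ℝ)) ^ 3 = m := by
        rw [← Real.rpow_natCast, ← Real.rpow_mul (by positivity)]
        norm_num
      have h8 : 0 ≤ (m : ℝ) ^ (1 / 3 : ℝ) := by positivity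
      set x := (m : ℝ) ^ (1 / 3 : ℝ) with hx
      have h9 : (2 * x + 2) ^ 3 = 8 * x ^ 3 + 24 * x ^ 2 + 24 * x + 8 := by ring
      rw [h9, h7]
      nlinarith [sq_nonneg x]
    calc (n : ℝ) ^ (1 / 3 : ℝ) ≤ ((2 * (m : ℝ) ^ (1 / 3 : ℝ) + 2) ^ 3) ^ (1 / 3 : ℝ) :=
          Real.rpow_le_rpow (by positivity) h5 (by norm_num)
      _ = 2 * (m : ℝ) ^ (1 / 3 : ℝ) + 2 := by
          rw [← Real.rpow_natCast, ← Real.rpow_mul (by positivity)]
          norm_num
  have h5 : Real.exp (-(c0 (q ^ 5) * (m : ℝ) ^ (1 / 3 : ℝ))) ≤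
      2 * Real.exp (-(c0 (q ^ 5) / 2 * (n : ℝ) ^ (1 / 3 : ℝ))) := by
    have h6 : -(c0 (q ^ 5) * (m : ℝ) ^ (1 / 3 : ℝ)) ≤
        1 / 2 + -(c0 (q ^ 5) / 2 * (n : ℝ) ^ (1 / 3 : ℝ)) := by
      have h7 := mul_le_mul_of_nonneg_left h4 (show 0 ≤ c0 (q ^ 5) / 2 by positivity)
      linarith
    refine (Real.exp_le_exp.2 h6).trans ?_
    rw [Real.exp_add]
    apply mul_le_mul_of_nonneg_right _ (Real.exp_pos _).le
    have h8 : Real.exp (1 / 2) ^ 2 = Real.exp 1 := by
      rw [← Real.exp_nat_mul]; norm_num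
    have h9 := Real.exp_one_lt_d9
    nlinarith [Real.exp_pos (1 / 2 : ℝ)]
  calc q ^ (n % 5) * (8 * 2 ^ finrank QB V * (q ^ 5) ^ m *
        Real.exp (-(c0 (q ^ 5) * (m : ℝ) ^ (1 / 3 : ℝ))))
      ≤ q ^ (n % 5) * (8 * 2 ^ finrank QB V * (q ^ 5) ^ m *
        (2 * Real.exp (-(c0 (q ^ 5) / 2 * (n : ℝ) ^ (1 / 3 : ℝ))))) := by
        gcongr
    _ = 16 * 2 ^ finrank QB V * q ^ (n % 5 + 5 * m) *
        Real.exp (-(c0 (q ^ 5) / 2 * (n : ℝ) ^ (1 / 3 : ℝ))) := by
        rw [pow_add, pow_mul]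
        ring
    _ = _ := by rw [← hn]

end

end Pool.Agent.E8helper48.RW
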