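import Pool.Agent.E8helper48.RW.Reduce
import Pool.Agent.E8helper48.RW.Anti

/-!
# The number of levels of a random word
-/

set_option autoImplicit false
set_option linter.unusedSectionVars false

namespace Pool.Agent.E8helper48.RW

section

variable {κ : Type} [Fintype κ] [DecidableEq κ] {Γ : Type} [LinearOrderedCommGroupWithZero Γ]

theorem pr_ne {p : κ → Γ} (hp : ∀ u, p u ≠ 0) : ∀ l, pr p l ≠ 0
  | [] => one_ne_zero
  | u :: l => mul_ne_zero (hp u) (pr_ne hp l)

theorem pr_append (p : κ → Γ) (l l' : List κ) : pr p (l ++ l') = pr p l * pr p l' := by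
  induction l with
  | nil => simp [pr]
  | cons u l ih => simp [pr, ih, mul_assoc]

/-- the levels of the letters of `U` -/
def glev (p : κ → Γ) (U : Finset κ) : List κ → List Γ
  | [] => []
  | u :: l => if u ∈ U then pr p l :: glev p U l else glev p U l

theorem glev_append (p : κ → Γ) (U : Finset κ) (l l' : List κ) :
    glev p U (l ++ l') = (glev p U l).map (fun x => x * pr p l') ++ glev p U l' := by
  induction l with
  | nil => simp [glev]
  | cons u l ih =>
    rw [List.cons_append, glev, glev]
    split_ifs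
    · rw [ih, pr_append]; rfl
    · exact ih

open Classical in
/-- the number of levels -/
noncomputable def NL (p : κ → Γ) (U : Finset κ) (l : List κ) : ℕ := ((glev p U l).toFinset).card

theorem NL_append_right (p : κ → Γ) (U : Finset κ) (l l' : List κ) :
    NL p U l' ≤ NL p U (l ++ l') := by
  classical
  unfold NL
  apply Finset.card_le_card
  intro x hx
  rw [List.mem_toFinset] at hx ⊢
  rw [glev_append]
  exact List.mem_append_right _ hx

theorem NL_append_left {p : κ → Γ} (hp : ∀ u, p u ≠ 0) (U : Finset κ) (l l' : List κ) :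
    NL p U l ≤ NL p U (l ++ l') := by
  classical
  unfold NL
  apply Finset.card_le_card_of_injOn (fun x => x * pr p l')
  · intro x hx
    rw [Finset.mem_coe, List.mem_toFinset] at hx ⊢
    rw [glev_append]
    exact List.mem_append_left _ (List.mem_map_of_mem (f := fun x => x * pr p l') hx)
  · intro x _ y _ hxy
    exact mul_right_cancel₀ (pr_ne hp l') hxy

theorem map_lev (v : Valuation ℂ Γ) (A : κ → ℂ) (U : Finset κ) (l : List κ) :
    (lev A U l).map v = glev (fun u => v (A u)) U l := by
  have h1 : ∀ l : List κ, v (PP A l) = pr (fun u => v (A u)) l := by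
    intro l
    induction l with
    | nil => simp [PP, pr]
    | cons u l ih => rw [PP, pr, map_mul, ih]
  induction l with
  | nil => rfl
  | cons u l ih =>
    rw [lev, glev]
    split_ifs
    · rw [List.map_cons, ih, h1]
    · exact ih

theorem nlev_eq (v : Valuation ℂ Γ) (A : κ → ℂ) (U : Finset κ) (l : List κ) :
    nlev v A U l = NL (fun u => v (A u)) U l := by
  unfold nlev NL
  rw [map_lev]

/-! ### collisions -/

/-- the number of `y` in the list with `y = x` -/
noncomputable def cn (G : List Γ) (x : Γ) : ℝ := (G.map fun y => ind (y = x)).sum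

/-- the number of pairs of equal entries -/
noncomputable def YY (G : List Γ) : ℝ := (G.map fun x => cn G x).sum

theorem cn_nonneg (G : List Γ) (x : Γ) : 0 ≤ cn G x := by
  unfold cn
  apply List.sum_nonneg
  intro a ha
  obtain ⟨y, -, rfl⟩ := List.mem_map.1 ha
  exact ind_nonneg _

theorem cn_cons (a : Γ) (G : List Γ) (x : Γ) : cn (a :: G) x = ind (a = x) + cn G x := by
  unfold cn
  rw [List.map_cons, List.sum_cons]

theorem YY_cons (a : Γ) (G : List Γ) : YY (a :: G) = 1 + 2 * cn G a + YY G := by
  have h1 : YY (a :: G) = cn (a :: G) a + (G.map fun x => cn (a :: G) x).sum := by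
    unfold YY
    rw [List.map_cons, List.sum_cons]
  have h2 : (G.map fun x => cn (a :: G) x).sum = cn G a + YY G := by
    unfold YY
    simp only [cn_cons]
    rw [List.sum_map_add]
    congr 1
    unfold cn
    congr 1
    apply List.map_congr_left
    intro x _
    congr 1
    exact propext eq_comm
  rw [h1, h2, cn_cons, ind_pos rfl]
  ring

theorem cn_eq_count [DecidableEq Γ] (G : List Γ) (x : Γ) : cn G x = G.count x := by
  induction G with
  | nil => simp [cn]
  | cons a G ih =>
    rw [cn_cons, ih, List.count_cons]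
    by_cases h : a = x
    · rw [ind_pos h]; simp [h]; ring
    · rw [ind_neg h]; simp [h]

open Classical in
theorem cs (G : List Γ) : (G.length : ℝ) ^ 2 ≤ (G.toFinset.card : ℝ) * YY G := by
  have h1 : (G.length : ℝ) = ∑ x ∈ G.toFinset, (G.count x : ℝ) := by
    rw [← Nat.cast_sum, List.sum_toFinset_count_eq_length]
  have h2 : YY G = ∑ x ∈ G.toFinset, (G.count x : ℝ) ^ 2 := by
    unfold YY
    rw [Finset.sum_list_map_count]
    refine Finset.sum_congr rfl fun x _ => ?_
    rw [cn_eq_count, nsmul_eq_mul, sq]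
  rw [h1, h2]
  exact sq_sum_le_card_mul_sum_sq

/-- the number of levels equal to `γ` times the total product -/
noncomputable def EE (p : κ → Γ) (U : Finset κ) (γ : Γ) (l : List κ) : ℝ :=
  cn (glev p U l) (γ * pr p l)

theorem EE_cons_le {p : κ → Γ} (hp : ∀ u, p u ≠ 0) (U : Finset κ) (γ : Γ) (u : κ) (l : List κ) :
    EE p U γ (u :: l) ≤ ind (γ * p u = 1) + EE p U (γ * p u) l := by
  unfold EE
  rw [pr, ← mul_assoc, glev]
  split_ifs
  · rw [cn_cons]
    have h1 : (pr p l = γ * p u * pr p l) ↔ (γ * p u = 1) := by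
      constructor
      · intro h
        have h2 : 1 * pr p l = γ * p u * pr p l := by rw [one_mul]; exact h
        exact (mul_right_cancel₀ (pr_ne hp l) h2).symm
      · intro h
        rw [h, one_mul]
    rw [h1]
  · have := ind_nonneg (γ * p u = 1)
    linarith

theorem EE_le {p : κ → Γ} (hp : ∀ u, p u ≠ 0) (U : Finset κ) (hq : 0 < Fintype.card κ) (n : ℕ) :
    ∀ γ : Γ, γ ≠ 0 → S n (EE p U γ) ≤ (Fintype.card κ : ℝ) ^ n *
      ∑ d ∈ Finset.range n, MM p (d + 1) γ⁻¹ / (Fintype.card κ : ℝ) ^ (d + 1) := by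
  have hq' : (0 : ℝ) < (Fintype.card κ : ℝ) := by exact_mod_cast hq
  set q : ℝ := (Fintype.card κ : ℝ) with hqdef
  induction n with
  | zero =>
    intro γ _
    simp [S, EE, glev, cn]
  | succ n ih =>
    intro γ hγ
    rw [S_succ]
    have h1 : ∀ u, S n (fun l => EE p U γ (u :: l)) ≤ q ^ n * ind (γ * p u = 1) +
        q ^ n * ∑ d ∈ Finset.range n, MM p (d + 1) (γ⁻¹ / p u) / q ^ (d + 1) := by
      intro u
      have h2 : S n (fun l => EE p U γ (u :: l)) ≤
          S n (fun l => ind (γ * p u = 1) + EE p U (γ * p u) l) :=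
        S_mono n fun l _ => EE_cons_le hp U γ u l
      rw [S_add, S_const] at h2
      have h3 := ih (γ * p u) (mul_ne_zero hγ (hp u))
      have h4 : (γ * p u)⁻¹ = γ⁻¹ / p u := by rw [mul_inv, div_eq_mul_inv]
      rw [h4] at h3
      exact h2.trans (by linarith)
    refine (Finset.sum_le_sum fun u _ => h1 u).trans (le_of_eq ?_)
    rw [Finset.sum_add_distrib, ← Finset.mul_sum, ← Finset.mul_sum]
    have h5 : ∑ u : κ, ind (γ * p u = 1) = MM p 1 γ⁻¹ := by
      rw [MM_succ hp]
      refine Finset.sum_congr rfl fun u _ => ?_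
      simp only [MM, S, pr]
      congr 1
      apply propext
      rw [eq_div_iff (hp u), one_mul]
      constructor
      · intro h
        exact eq_inv_of_mul_eq_one_right h
      · intro h
        rw [h]
        exact mul_inv_cancel₀ hγ
    have h6 : ∑ u : κ, ∑ d ∈ Finset.range n, MM p (d + 1) (γ⁻¹ / p u) / q ^ (d + 1) =
        ∑ d ∈ Finset.range n, MM p (d + 1 + 1) γ⁻¹ / q ^ (d + 1) := by
      rw [Finset.sum_comm]
      refine Finset.sum_congr rfl fun d _ => ?_
      rw [MM_succ hp (d + 1), Finset.sum_div]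
    rw [h5, h6, Finset.sum_range_succ' _ n, mul_add, Finset.mul_sum, Finset.mul_sum, add_comm]
    congr 1
    · refine Finset.sum_congr rfl fun d _ => ?_
      have e1 : q ^ (n + 1) * (MM p (d + 1 + 1) γ⁻¹ / q ^ (d + 1 + 1)) =
          q ^ n * (MM p (d + 1 + 1) γ⁻¹ * (q / (q ^ (d + 1) * q))) := by
        rw [pow_succ, pow_succ q (d + 1)]
        ring
      rw [e1, div_mul_cancel_right₀ hq'.ne', div_eq_mul_inv]
    · rw [zero_add, pow_one, pow_succ]
      field_simp

theorem MM_one_le {p : κ → Γ} (hp : ∀ u, p u ≠ 0) (hne : ∃ u, p u ≠ 1) (d : ℕ) :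
    MM p (d + 1) 1 ≤ ((Fintype.card κ : ℝ) + 2) / 4 *
      ((Fintype.card κ : ℝ) ^ (d + 1) / √((d : ℝ) + 1)) := by
  by_cases h : ∃ i₀ i₁, p i₀ ≠ p i₁
  · obtain ⟨i₀, i₁, h⟩ := h
    refine (MM_le hp h (d + 1) 1).trans ?_
    apply mul_le_mul_of_nonneg_left _ (by positivity)
    apply div_le_div_of_nonneg_left (by positivity) (Real.sqrt_pos.2 (by positivity))
    apply Real.sqrt_le_sqrt
    push_cast
    linarith
  · push Not at h
    obtain ⟨u₀, hu₀⟩ := hne
    have h1 : ∀ l : List κ, pr p l = (p u₀) ^ l.length := by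
      intro l
      induction l with
      | nil => simp [pr]
      | cons u l ih => rw [pr, ih, h u u₀, List.length_cons, pow_succ, mul_comm]
    have h2 : MM p (d + 1) 1 ≤ S (d + 1) (fun _ : List κ => 0) := by
      unfold MM
      refine S_mono (d + 1) fun l hl => ?_
      rw [ind_neg]
      rw [h1, hl]
      exact pow_ne_one_of (hp u₀) hu₀ (d + 1) (Nat.succ_ne_zero d)
    rw [S_const, mul_zero] at h2
    exact h2.trans (by positivity)

theorem sum_inv_sqrt (n : ℕ) : ∑ d ∈ Finset.range n, (√((d : ℝ) + 1))⁻¹ ≤ 2 * √(n : ℝ) := by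
  induction n with
  | zero => simp
  | succ n ih =>
    rw [Finset.sum_range_succ]
    push_cast
    have h1 : 0 < √((n : ℝ) + 1) := Real.sqrt_pos.2 (by positivity)
    have h2 : √((n : ℝ) + 1) ^ 2 = n + 1 := Real.sq_sqrt (by positivity)
    have h3 : √(n : ℝ) ^ 2 = n := Real.sq_sqrt (by positivity)
    have h4 : 0 ≤ √(n : ℝ) := Real.sqrt_nonneg _
    have h5 : (√((n : ℝ) + 1))⁻¹ ≤ 2 * √((n : ℝ) + 1) - 2 * √(n : ℝ) := by
      rw [inv_le_iff_one_le_mul₀ h1]
      nlinarith [sq_nonneg (√((n : ℝ) + 1) - √(n : ℝ))]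
    linarith

variable {p : κ → Γ} {U : Finset κ}

theorem EE_one_le (hp : ∀ u, p u ≠ 0) (hne : ∃ u, p u ≠ 1) (n : ℕ) :
    S n (EE p U 1) ≤ (Fintype.card κ : ℝ) ^ n *
      (((Fintype.card κ : ℝ) + 2) / 4 * (2 * √(n : ℝ))) := by
  have hq : 0 < Fintype.card κ := Fintype.card_pos_iff.2 ⟨hne.choose⟩
  have hq' : (0 : ℝ) < (Fintype.card κ : ℝ) := by exact_mod_cast hq
  refine (EE_le hp U hq n 1 one_ne_zero).trans ?_
  apply mul_le_mul_of_nonneg_left _ (by positivity)
  rw [inv_one]
  refine le_trans ?_ (mul_le_mul_of_nonneg_left (sum_inv_sqrt n) (by positivity))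
  rw [Finset.mul_sum]
  refine Finset.sum_le_sum fun d _ => ?_
  rw [div_le_iff₀ (by positivity)]
  refine (MM_one_le hp hne d).trans (le_of_eq ?_)
  rw [div_eq_mul_inv ((Fintype.card κ : ℝ) ^ (d + 1))]
  ring

theorem YY_le (hp : ∀ u, p u ≠ 0) (hne : ∃ u, p u ≠ 1) (n : ℕ) :
    S n (fun l => YY (glev p U l)) ≤ (Fintype.card κ : ℝ) ^ n *
      (n * (1 + ((Fintype.card κ : ℝ) + 2) * √(n : ℝ))) := by
  have hq : 0 < Fintype.card κ := Fintype.card_pos_iff.2 ⟨hne.choose⟩
  have hq' : (0 : ℝ) < (Fintype.card κ : ℝ) := by exact_mod_cast hq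
  induction n with
  | zero => simp [S, glev, YY]
  | succ n ih =>
    rw [S_succ]
    have h1 : ∀ u, S n (fun l => YY (glev p U (u :: l))) ≤
        (Fintype.card κ : ℝ) ^ n * (1 + ((Fintype.card κ : ℝ) + 2) * √(n : ℝ)) +
        S n (fun l => YY (glev p U l)) := by
      intro u
      have h2 := EE_one_le (U := U) hp hne n
      have h3 : S n (fun l => YY (glev p U (u :: l))) ≤
          S n (fun l => (1 + 2 * EE p U 1 l) + YY (glev p U l)) := by
        refine S_mono n fun l _ => ?_
        rw [glev]
        split_ifs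
        · rw [YY_cons]
          unfold EE
          rw [one_mul]
        · have : 0 ≤ EE p U 1 l := cn_nonneg _ _
          linarith
      rw [S_add, S_add, S_const, S_smul] at h3
      refine h3.trans ?_
      have h4 : (Fintype.card κ : ℝ) ^ n * (1 + ((Fintype.card κ : ℝ) + 2) * √(n : ℝ)) =
        (Fintype.card κ : ℝ) ^ n * 1 + 2 * ((Fintype.card κ : ℝ) ^ n *
          (((Fintype.card κ : ℝ) + 2) / 4 * (2 * √(n : ℝ)))) := by ring
      rw [h4]
      linarith
    refine (Finset.sum_le_sum fun u _ => h1 u).trans ?_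
    rw [Finset.sum_const, Finset.card_univ, nsmul_eq_mul]
    have h5 : √(n : ℝ) ≤ √((n + 1 : ℕ) : ℝ) := Real.sqrt_le_sqrt (by push_cast; linarith)
    set q : ℝ := (Fintype.card κ : ℝ) with hqdef
    have h6 : (q + 2) * √(n : ℝ) ≤ (q + 2) * √((n + 1 : ℕ) : ℝ) :=
      mul_le_mul_of_nonneg_left h5 (by positivity)
    calc q * (q ^ n * (1 + (q + 2) * √(n : ℝ)) + S n (fun l => YY (glev p U l)))
        ≤ q * (q ^ n * (1 + (q + 2) * √((n + 1 : ℕ) : ℝ)) +
            q ^ n * (n * (1 + (q + 2) * √((n + 1 : ℕ) : ℝ)))) := by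
          apply mul_le_mul_of_nonneg_left _ hq'.le
          apply add_le_add
          · apply mul_le_mul_of_nonneg_left _ (by positivity)
            linarith
          · refine ih.trans ?_
            apply mul_le_mul_of_nonneg_left _ (by positivity)
            apply mul_le_mul_of_nonneg_left _ (by positivity)
            linarith
      _ = _ := by
          push_cast
          ring

theorem XX_eq (n : ℕ) : (Fintype.card κ : ℝ) * S n (fun l => ((glev p U l).length : ℝ)) =
    U.card * (n * (Fintype.card κ : ℝ) ^ n) := by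
  induction n with
  | zero => simp [S, glev]
  | succ n ih =>
    rw [S_succ]
    have h1 : ∀ u, S n (fun l => ((glev p U (u :: l)).length : ℝ)) =
        (if u ∈ U then (Fintype.card κ : ℝ) ^ n else 0) + S n (fun l => ((glev p U l).length : ℝ)) := by
      intro u
      by_cases hu : u ∈ U
      · rw [if_pos hu]
        have h2 := S_add n (fun _ : List κ => (1 : ℝ)) (fun l => ((glev p U l).length : ℝ))
        rw [S_const, mul_one] at h2
        rw [← h2]
        refine S_congr n fun l _ => ?_
        rw [glev, if_pos hu, List.length_cons]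
        push_cast
        ring
      · rw [if_neg hu, zero_add]
        refine S_congr n fun l _ => ?_
        rw [glev, if_neg hu]
    rw [Finset.sum_congr rfl fun u _ => h1 u, Finset.sum_add_distrib, Finset.sum_const,
      Finset.card_univ, nsmul_eq_mul, mul_add, ih, ← Finset.sum_filter, Finset.sum_const,
      Finset.filter_mem_eq_inter, Finset.univ_inter, nsmul_eq_mul]
    push_cast
    ring

/-- **One group of letters.** -/
theorem group (hp : ∀ u, p u ≠ 0) (hne : ∃ u, p u ≠ 1) (hU : 4 ≤ U.card) (n : ℕ) (hn : 1 ≤ n) :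
    (Fintype.card κ : ℝ) ^ n / (Fintype.card κ : ℝ) ≤
      S n (fun l => ind (2 / (((Fintype.card κ : ℝ) + 3) * (Fintype.card κ : ℝ) ^ 2) * √(n : ℝ) ≤
        NL p U l)) := by
  have hq : 0 < Fintype.card κ := Fintype.card_pos_iff.2 ⟨hne.choose⟩
  have hq' : (0 : ℝ) < (Fintype.card κ : ℝ) := by exact_mod_cast hq
  have hX := XX_eq (p := p) (U := U) n
  have hY := YY_le (U := U) hp hne n
  set q : ℝ := (Fintype.card κ : ℝ) with hqdef
  have hn' : (1 : ℝ) ≤ n := by exact_mod_cast hn
  have hs1 : 1 ≤ √(n : ℝ) := by rw [Real.one_le_sqrt]; exact hn'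
  have hs2 : √(n : ℝ) * √(n : ℝ) = n := Real.mul_self_sqrt (by positivity)
  set s := √(n : ℝ) with hsdef
  set lam : ℝ := 2 / (q * (q + 3) * s) with hlam
  have hlam0 : 0 < lam := by positivity
  -- the mean of `X - lam * Y`
  have h1 : 2 * (n * q ^ n) / q ≤ S n (fun l => ((glev p U l).length : ℝ) + (-lam) * YY (glev p U l)) := by
    rw [S_add, S_smul]
    have h2 : 4 * (n * q ^ n) / q ≤ S n (fun l => ((glev p U l).length : ℝ)) := by
      rw [div_le_iff₀ hq', mul_comm (S n _), hX]
      apply mul_le_mul_of_nonneg_right _ (by positivity)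
      exact_mod_cast hU
    have h3 : lam * S n (fun l => YY (glev p U l)) ≤ 2 * (n * q ^ n) / q := by
      have h4 : 1 + (q + 2) * s ≤ (q + 3) * s := by nlinarith
      calc lam * S n (fun l => YY (glev p U l)) ≤ lam * (q ^ n * (n * (1 + (q + 2) * s))) :=
            mul_le_mul_of_nonneg_left hY hlam0.le
        _ ≤ lam * (q ^ n * (n * ((q + 3) * s))) := by
            apply mul_le_mul_of_nonneg_left _ hlam0.le
            apply mul_le_mul_of_nonneg_left _ (by positivity)
            apply mul_le_mul_of_nonneg_left h4 (by positivity)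
        _ = 2 * (n * q ^ n) / q := by
            rw [hlam]
            field_simp
    have h5 : 4 * (n * q ^ n) / q = 2 * (n * q ^ n) / q + 2 * (n * q ^ n) / q := by ring
    linarith
  -- pointwise
  have h2 : ∀ l : List κ, l.length = n → ((glev p U l).length : ℝ) + (-lam) * YY (glev p U l) ≤
      n * ind (2 / ((q + 3) * q ^ 2) * s ≤ NL p U l) + n / q := by
    intro l hl
    have hYn : 0 ≤ YY (glev p U l) := by
      unfold YY
      apply List.sum_nonneg
      intro a ha
      obtain ⟨y, -, rfl⟩ := List.mem_map.1 ha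
      exact cn_nonneg _ _
    have hXn : ((glev p U l).length : ℝ) ≤ n := by
      rw [← hl]
      have : ∀ l : List κ, (glev p U l).length ≤ l.length := by
        intro l
        induction l with
        | nil => simp [glev]
        | cons u l ih =>
          rw [glev]
          split_ifs
          · simpa using ih
          · exact ih.trans (by simp)
      exact_mod_cast this l
    by_cases hgood : n / q < ((glev p U l).length : ℝ) + (-lam) * YY (glev p U l)
    · rw [ind_pos]
      · have : 0 ≤ lam * YY (glev p U l) := by positivity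
        have h0 : 0 ≤ (n : ℝ) / q := by positivity
        linarith
      · -- many levels
        set x : ℝ := ((glev p U l).length : ℝ) with hx
        set y : ℝ := YY (glev p U l) with hy
        have hcs : x ^ 2 ≤ (NL p U l : ℝ) * y := cs (glev p U l)
        have hnq : 0 < (n : ℝ) / q := by positivity
        have hly : 0 ≤ lam * y := by positivity
        have hx0 : (n : ℝ) / q < x := by linarith
        have hxy : lam * y < x := by linarith
        have hxpos : 0 < x := by linarith
        have h7 : lam * x * x ≤ (NL p U l : ℝ) * x := by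
          calc lam * x * x = lam * x ^ 2 := by ring
            _ ≤ lam * ((NL p U l : ℝ) * y) := mul_le_mul_of_nonneg_left hcs hlam0.le
            _ = (NL p U l : ℝ) * (lam * y) := by ring
            _ ≤ (NL p U l : ℝ) * x := mul_le_mul_of_nonneg_left hxy.le (by positivity)
        have h8 : lam * x ≤ (NL p U l : ℝ) := le_of_mul_le_mul_right h7 hxpos
        have h9 : lam * ((n : ℝ) / q) ≤ lam * x := mul_le_mul_of_nonneg_left hx0.le hlam0.le
        have h10 : 2 / ((q + 3) * q ^ 2) * s = lam * ((n : ℝ) / q) := by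
          rw [hlam, ← hs2]
          field_simp
        rw [h10]
        linarith
    · push Not at hgood
      have := ind_nonneg (2 / ((q + 3) * q ^ 2) * s ≤ (NL p U l : ℝ))
      have : 0 ≤ (n : ℝ) * ind (2 / ((q + 3) * q ^ 2) * s ≤ (NL p U l : ℝ)) := by positivity
      linarith
  have h3 := h1.trans (S_mono n h2)
  rw [S_add, S_smul, S_const] at h3
  have h4 : (n : ℝ) * (q ^ n / q) ≤ n * S n (fun l => ind (2 / ((q + 3) * q ^ 2) * s ≤ NL p U l)) := by
    have h5 : 2 * (n * q ^ n) / q = n * (q ^ n / q) + q ^ n * (n / q) := by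
      field_simp
      ring
    linarith
  exact le_of_mul_le_mul_left h4 (by positivity)

end

end Pool.Agent.E8helper48.RW
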