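import Pool.Agent.E8helper48.RW.Final

/-!
# Random polynomials
-/

set_option autoImplicit false
set_option linter.unusedSectionVars false

namespace Pool.Agent.E8helper48.RW

open Module
open Pool.Agent.H301R2.SSE (QB mem_QB Lt Lt_alg Lt_log)

/-- subset sums of a finite family in a coset of a subspace -/
theorem subsets_le {F M J : Type} [Field F] [AddCommGroup M] [Module F M] [DecidableEq J]
    (z : J → M) (s : Finset J) : ∀ t : M,
    Nat.card {r : Finset J // r ⊆ s ∧ ∑ j ∈ r, z j = t} *
      2 ^ finrank F (Submodule.span F (z '' (s : Set J))) ≤ 2 ^ s.card := by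
  classical
  induction s using Finset.induction_on with
  | empty =>
    intro t
    have h1 : finrank F (Submodule.span F (z '' ((∅ : Finset J) : Set J))) = 0 := by
      rw [Finset.coe_empty, Set.image_empty, Submodule.span_empty, finrank_bot]
    rw [h1, pow_zero, mul_one, Finset.card_empty, pow_zero]
    have : Subsingleton {r : Finset J // r ⊆ ∅ ∧ ∑ j ∈ r, z j = t} := by
      constructor
      rintro ⟨a, ha, -⟩ ⟨b, hb, -⟩
      apply Subtype.ext
      exact (Finset.subset_empty.1 ha).trans (Finset.subset_empty.1 hb).symm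
    exact Finite.card_le_one_iff_subsingleton.2 this
  | insert a s ha ih =>
    intro t
    let N : M → ℕ := fun t => Nat.card {r : Finset J // r ⊆ s ∧ ∑ j ∈ r, z j = t}
    have hfin : ∀ (s : Finset J) (t : M), Finite {r : Finset J // r ⊆ s ∧ ∑ j ∈ r, z j = t} := by
      intro s t
      exact Finite.of_injective (fun r => (⟨r.1, Finset.mem_powerset.2 r.2.1⟩ : {r // r ∈ s.powerset}))
        (fun x y h => Subtype.ext (congrArg (fun w : {r // r ∈ s.powerset} => w.1) h))
    have hN : Nat.card {r : Finset J // r ⊆ insert a s ∧ ∑ j ∈ r, z j = t} ≤ N t + N (t - z a) := by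
      have := hfin s t
      have := hfin s (t - z a)
      rw [← Nat.card_sum]
      let f : {r : Finset J // r ⊆ insert a s ∧ ∑ j ∈ r, z j = t} →
          {r : Finset J // r ⊆ s ∧ ∑ j ∈ r, z j = t} ⊕
          {r : Finset J // r ⊆ s ∧ ∑ j ∈ r, z j = t - z a} := fun r =>
        if h : a ∈ r.1 then Sum.inr ⟨r.1.erase a, by
            intro x hx
            rw [Finset.mem_erase] at hx
            exact (Finset.mem_insert.1 (r.2.1 hx.2)).resolve_left hx.1, by
            have h5 := Finset.sum_erase_add r.1 z h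
            rw [r.2.2] at h5
            exact eq_sub_iff_add_eq.2 h5⟩
        else Sum.inl ⟨r.1, by
            intro x hx
            rcases Finset.mem_insert.1 (r.2.1 hx) with rfl | h'
            · exact absurd hx h
            · exact h', r.2.2⟩
      apply Nat.card_le_card_of_injective f
      rintro ⟨x, hx1, hx2⟩ ⟨y, hy1, hy2⟩ hxy
      apply Subtype.ext
      simp only [f] at hxy
      by_cases h1 : a ∈ x <;> by_cases h2 : a ∈ y
      · rw [dif_pos h1, dif_pos h2] at hxy
        have h3 := Sum.inr_injective hxy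
        have h4 : x.erase a = y.erase a := congrArg Subtype.val h3
        calc x = insert a (x.erase a) := (Finset.insert_erase h1).symm
          _ = insert a (y.erase a) := by rw [h4]
          _ = y := Finset.insert_erase h2
      · rw [dif_pos h1, dif_neg h2] at hxy
        exact absurd hxy (by simp)
      · rw [dif_neg h1, dif_pos h2] at hxy
        exact absurd hxy (by simp)
      · rw [dif_neg h1, dif_neg h2] at hxy
        have h3 := Sum.inl_injective hxy
        have h4 : x = y := by simpa using h3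
        exact h4
    have hmem : ∀ t, 0 < N t → t ∈ Submodule.span F (z '' (s : Set J)) := by
      intro t ht
      have := hfin s t
      obtain ⟨r, hr, hrt⟩ := Nat.card_pos_iff.1 ht |>.1
      rw [← hrt]
      exact Submodule.sum_mem _ fun j hj => Submodule.subset_span ⟨j, hr hj, rfl⟩
    have hsp : Submodule.span F (z '' ((insert a s : Finset J) : Set J)) =
        Submodule.span F {z a} ⊔ Submodule.span F (z '' (s : Set J)) := by
      rw [Finset.coe_insert, Set.image_insert_eq, ← Submodule.span_union, Set.singleton_union]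
    have hfd : FiniteDimensional F (Submodule.span F (z '' (s : Set J))) :=
      FiniteDimensional.span_of_finite F (s.finite_toSet.image z)
    have hr1 : finrank F (Submodule.span F (z '' ((insert a s : Finset J) : Set J))) ≤
        finrank F (Submodule.span F (z '' (s : Set J))) + 1 := by
      rw [hsp]
      have h1 := Submodule.finrank_add_le_finrank_add_finrank (Submodule.span F {z a})
        (Submodule.span F (z '' (s : Set J)))
      have h2 : finrank F (Submodule.span F {z a}) ≤ 1 := by
        have := finrank_span_le_card (R := F) ({z a} : Set M)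
        simpa using this
      omega
    rw [Finset.card_insert_of_notMem ha, pow_succ]
    have h1 := ih t
    have h2 := ih (t - z a)
    by_cases hz : z a ∈ Submodule.span F (z '' (s : Set J))
    · have h3 : Submodule.span F (z '' ((insert a s : Finset J) : Set J)) =
          Submodule.span F (z '' (s : Set J)) := by
        rw [hsp, sup_eq_right, Submodule.span_le]
        simpa using hz
      rw [h3]
      calc _ ≤ (N t + N (t - z a)) * 2 ^ finrank F (Submodule.span F (z '' (s : Set J))) :=
            Nat.mul_le_mul_right _ hN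
        _ ≤ 2 ^ s.card * 2 := by
            rw [Nat.add_mul]
            change N t * _ ≤ _ at h1
            change N (t - z a) * _ ≤ _ at h2
            omega
    · have h3 : N t = 0 ∨ N (t - z a) = 0 := by
        by_contra h
        push Not at h
        have h4 := hmem t (Nat.pos_of_ne_zero h.1)
        have h5 := hmem (t - z a) (Nat.pos_of_ne_zero h.2)
        apply hz
        have h6 : z a = t - (t - z a) := by abel
        rw [h6]
        exact Submodule.sub_mem _ h4 h5
      have h4 : 2 ^ finrank F (Submodule.span F (z '' ((insert a s : Finset J) : Set J))) ≤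
          2 ^ finrank F (Submodule.span F (z '' (s : Set J))) * 2 := by
        rw [← pow_succ]
        exact Nat.pow_le_pow_right (by norm_num) hr1
      calc _ ≤ (N t + N (t - z a)) * (2 ^ finrank F (Submodule.span F (z '' (s : Set J))) * 2) :=
            Nat.mul_le_mul hN h4
        _ ≤ 2 ^ s.card * 2 := by
            change N t * _ ≤ _ at h1
            change N (t - z a) * _ ≤ _ at h2
            rcases h3 with h | h
            · rw [h, Nat.zero_add]; nlinarith
            · rw [h, Nat.add_zero]; nlinarith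

theorem mkQ_eq (L : Submodule QB ℂ) (x y : ℂ) : L.mkQ x = L.mkQ y ↔ x - y ∈ L := by
  rw [← sub_eq_zero, ← map_sub, Submodule.mkQ_apply, Submodule.Quotient.mk_eq_zero]

/-- **Random polynomials in two numbers.** -/
theorem poly {θ s μ : ℂ} (hθ : Transcendental ℚ θ) (hμ : μ ≠ 0) (V : Submodule QB ℂ)
    [FiniteDimensional QB V] (D : ℕ) (hD : 1 ≤ D) (y : ℂ) :
    (Nat.card {r : Finset (Fin D × Fin D) //
      y + μ * ∑ j ∈ r, θ ^ (j.1 : ℕ) * s ^ (j.2 : ℕ) ∈ Lt ⊔ V} : ℝ) ≤
      3 * 2 ^ finrank QB V * 2 ^ (D ^ 2) * (2 : ℝ) ^ (-((D : ℝ) / 4)) := by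
  classical
  set L := Lt ⊔ V with hL
  let z : Fin D × Fin D → (ℂ ⧸ L) := fun j => L.mkQ (μ * (θ ^ (j.1 : ℕ) * s ^ (j.2 : ℕ)))
  have h1 := subsets_le (F := QB) z Finset.univ (L.mkQ (-y))
  have hcard : Nat.card {r : Finset (Fin D × Fin D) //
      y + μ * ∑ j ∈ r, θ ^ (j.1 : ℕ) * s ^ (j.2 : ℕ) ∈ L} =
      Nat.card {r : Finset (Fin D × Fin D) // r ⊆ Finset.univ ∧ ∑ j ∈ r, z j = L.mkQ (-y)} := by
    apply Nat.card_congr
    apply Equiv.subtypeEquivRight
    intro r
    have e1 : ∑ j ∈ r, z j = L.mkQ (μ * ∑ j ∈ r, θ ^ (j.1 : ℕ) * s ^ (j.2 : ℕ)) := by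
      rw [Finset.mul_sum, map_sum]
    rw [e1, mkQ_eq]
    constructor
    · intro h
      refine ⟨Finset.subset_univ _, ?_⟩
      rw [sub_neg_eq_add, add_comm]
      exact h
    · rintro ⟨-, h⟩
      rw [sub_neg_eq_add, add_comm] at h
      exact h
  rw [hcard]
  -- the rank
  set R := finrank QB (Submodule.span QB (z '' ((Finset.univ : Finset (Fin D × Fin D)) : Set _)))
    with hR
  let T : Submodule QB ℂ := Submodule.span QB (Set.range fun i : Fin (D / 2) => θ ^ (2 * (i : ℕ)))
  have hTfd : FiniteDimensional QB T := FiniteDimensional.span_of_finite QB (Set.finite_range _)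
  have hT : finrank QB T = D / 2 := by
    have h2 : LinearIndependent QB fun i : Fin (D / 2) => θ ^ (2 * (i : ℕ)) := by
      obtain ⟨W, hW1, hW2⟩ := exists_val hθ
      apply indep_of_val W.valuation hW1
      · intro i
        exact pow_ne_zero _ (transc_ne_zero hθ)
      · intro i j hij
        simp only [map_pow] at hij
        have h3 := (pow_right_strictMono₀ hW2).injective hij
        apply Fin.ext
        omega
    have h3 := finrank_span_eq_card h2
    rw [Fintype.card_fin] at h3
    exact h3
  have h2 := rank_bound hθ hμ V T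
  have h3 : finrank QB ((T.map (mm μ) ⊔ T.map (mm (μ * θ))).map (Lt ⊔ V).mkQ) ≤ R := by
    have : FiniteDimensional QB (Submodule.span QB
        (z '' ((Finset.univ : Finset (Fin D × Fin D)) : Set _))) :=
      FiniteDimensional.span_of_finite QB ((Finset.finite_toSet _).image z)
    apply Submodule.finrank_mono
    rw [Submodule.map_sup]
    apply sup_le
    · rw [Submodule.map_span, Submodule.map_span, Submodule.span_le]
      rintro _ ⟨_, ⟨_, ⟨i, rfl⟩, rfl⟩, rfl⟩
      apply Submodule.subset_span
      refine ⟨(⟨2 * (i : ℕ), by omega⟩, ⟨0, by omega⟩), by simp, ?_⟩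
      simp [z]
    · rw [Submodule.map_span, Submodule.map_span, Submodule.span_le]
      rintro _ ⟨_, ⟨_, ⟨i, rfl⟩, rfl⟩, rfl⟩
      apply Submodule.subset_span
      refine ⟨(⟨2 * (i : ℕ) + 1, by omega⟩, ⟨0, by omega⟩), by simp, ?_⟩
      simp only [z, mm_apply]
      congr 1
      rw [pow_succ]
      simp only [pow_zero]
      ring
  rw [hT] at h2
  have h4 : D ≤ 4 * R + 4 * finrank QB V + 5 := by omega
  have h5 : ((Nat.card {r : Finset (Fin D × Fin D) // r ⊆ Finset.univ ∧ ∑ j ∈ r, z j = L.mkQ (-y)} :
      ℕ) : ℝ) * 2 ^ R ≤ 2 ^ (D ^ 2) := by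
    have h6 : (Finset.univ : Finset (Fin D × Fin D)).card = D ^ 2 := by
      rw [Finset.card_univ, Fintype.card_prod, Fintype.card_fin, sq]
    rw [h6] at h1
    exact_mod_cast h1
  have h6 : (2 : ℝ) ^ ((D : ℝ) / 4) ≤ 3 * 2 ^ finrank QB V * 2 ^ R := by
    have h7 : (D : ℝ) / 4 ≤ (R : ℝ) + finrank QB V + 5 / 4 := by
      have h8 : (D : ℝ) ≤ 4 * R + 4 * finrank QB V + 5 := by exact_mod_cast h4
      linarith
    calc (2 : ℝ) ^ ((D : ℝ) / 4) ≤ (2 : ℝ) ^ ((R : ℝ) + finrank QB V + 5 / 4) :=
          Real.rpow_le_rpow_of_exponent_le (by norm_num) h7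
      _ = 2 ^ R * 2 ^ finrank QB V * (2 : ℝ) ^ (5 / 4 : ℝ) := by
          rw [Real.rpow_add (by norm_num), Real.rpow_add (by norm_num), Real.rpow_natCast,
            Real.rpow_natCast]
      _ ≤ 2 ^ R * 2 ^ finrank QB V * 3 := by
          apply mul_le_mul_of_nonneg_left _ (by positivity)
          have h9 : ((2 : ℝ) ^ (5 / 4 : ℝ)) ^ 4 ≤ 3 ^ 4 := by
            rw [← Real.rpow_natCast, ← Real.rpow_mul (by norm_num)]
            norm_num
          exact le_of_pow_le_pow_left₀ (by norm_num) (by norm_num) h9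
      _ = _ := by ring
  rw [Real.rpow_neg (by norm_num)]
  have h7 : 0 < (2 : ℝ) ^ ((D : ℝ) / 4) := Real.rpow_pos_of_pos (by norm_num) _
  rw [← div_eq_mul_inv, le_div_iff₀ h7]
  have h8 : (0 : ℝ) ≤ ((Nat.card {r : Finset (Fin D × Fin D) //
    r ⊆ Finset.univ ∧ ∑ j ∈ r, z j = L.mkQ (-y)} : ℕ) : ℝ) := Nat.cast_nonneg _
  calc _ ≤ ((Nat.card {r : Finset (Fin D × Fin D) //
        r ⊆ Finset.univ ∧ ∑ j ∈ r, z j = L.mkQ (-y)} : ℕ) : ℝ) * (3 * 2 ^ finrank QB V * 2 ^ R) :=
        mul_le_mul_of_nonneg_left h6 h8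
    _ = 3 * 2 ^ finrank QB V * (((Nat.card {r : Finset (Fin D × Fin D) //
        r ⊆ Finset.univ ∧ ∑ j ∈ r, z j = L.mkQ (-y)} : ℕ) : ℝ) * 2 ^ R) := by ring
    _ ≤ 3 * 2 ^ finrank QB V * 2 ^ (D ^ 2) := mul_le_mul_of_nonneg_left h5 (by positivity)

end Pool.Agent.E8helper48.RW
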