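import Pool.Agent.H301R2.SSE.Forms

/-!
# Valuations of `ℂ` trivial on the algebraic numbers
-/

set_option autoImplicit false

namespace Pool.Agent.E8helper48.RW

open Module
open Pool.Agent.H301R2.SSE (QB mem_QB)

/-- the ring of algebraic numbers is integrally closed in `ℂ` -/
theorem closedIn : IsIntegrallyClosedIn (algebraicClosure ℚ ℂ).toSubalgebra.toSubring ℂ := by
  rw [Subring.isIntegrallyClosedIn_iff]
  intro x hx
  obtain ⟨p, hp, hpx⟩ := hx
  change x ∈ algebraicClosure ℚ ℂ
  rw [mem_algebraicClosure_iff]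
  have h1 : IsIntegral (algebraicClosure ℚ ℂ) x := ⟨p, hp, hpx⟩
  have h0 : Algebra.IsAlgebraic ℚ (algebraicClosure ℚ ℂ) := by
    refine ⟨fun a => ?_⟩
    have h3 : IsAlgebraic ℚ (algebraMap (algebraicClosure ℚ ℂ) ℂ a) := mem_QB.1 a.2
    exact (isAlgebraic_algebraMap_iff (algebraMap (algebraicClosure ℚ ℂ) ℂ).injective).1 h3
  have h2 : IsAlgebraic (algebraicClosure ℚ ℂ) x := h1.isAlgebraic
  exact h2.restrictScalars ℚ

theorem exists_val {θ : ℂ} (hθ : Transcendental ℚ θ) : ∃ V : ValuationSubring ℂ,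
    (∀ a : ℂ, a ≠ 0 → IsAlgebraic ℚ a → V.valuation a = 1) ∧ 1 < V.valuation θ := by
  have := closedIn
  obtain ⟨V, hV, hθV⟩ := Subring.exists_le_valuationSubring_of_isIntegrallyClosedIn
    (R := (algebraicClosure ℚ ℂ).toSubalgebra.toSubring) (x := θ) (fun h => hθ (by
      exact mem_algebraicClosure_iff.1 h))
  have hle : ∀ a : ℂ, IsAlgebraic ℚ a → V.valuation a ≤ 1 := by
    intro a ha
    rw [ValuationSubring.valuation_le_one_iff]
    exact hV (mem_algebraicClosure_iff.2 ha)
  refine ⟨V, ?_, ?_⟩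
  · intro a ha0 ha
    apply le_antisymm (hle a ha)
    have h1 := hle a⁻¹ ha.inv
    rw [map_inv₀] at h1
    have h2 : V.valuation a ≠ 0 := (Valuation.ne_zero_iff _).2 ha0
    exact (inv_le_one₀ (zero_lt_iff.2 h2)).1 h1
  · rw [← not_le, ValuationSubring.valuation_le_one_iff]
    exact hθV

/-- Elements with distinct valuations are independent over the algebraic numbers. -/
theorem indep_of_val {Γ : Type} [LinearOrderedCommGroupWithZero Γ] (v : Valuation ℂ Γ)
    (hv : ∀ a : ℂ, a ≠ 0 → IsAlgebraic ℚ a → v a = 1) {ι : Type} (N : ι → ℂ)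
    (hN : ∀ i, N i ≠ 0) (hinj : Function.Injective fun i => v (N i)) : LinearIndependent QB N := by
  classical
  rw [linearIndependent_iff']
  intro s c hc
  by_contra hcon
  push Not at hcon
  obtain ⟨i₁, hi₁, hci₁⟩ := hcon
  let s' := s.filter fun i => c i ≠ 0
  have hs' : s'.Nonempty := ⟨i₁, Finset.mem_filter.2 ⟨hi₁, hci₁⟩⟩
  obtain ⟨i₀, hi₀, hmax⟩ := s'.exists_max_image (fun i => v (N i)) hs'
  have hval : ∀ i ∈ s', v (c i • N i) = v (N i) := by
    intro i hi
    have h1 : c i ≠ 0 := (Finset.mem_filter.1 hi).2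
    have h2 : ((c i : ℂ)) ≠ 0 := fun h => h1 (Subtype.ext h)
    have h3 : c i • N i = (c i : ℂ) * N i := Algebra.smul_def _ _
    rw [h3, map_mul, hv _ h2 (mem_QB.1 (c i).2), one_mul]
  have hsum : ∑ i ∈ s', c i • N i = 0 := by
    rw [← hc]
    apply Finset.sum_subset (Finset.filter_subset _ _)
    intro i hi hi'
    have : c i = 0 := by
      by_contra h
      exact hi' (Finset.mem_filter.2 ⟨hi, h⟩)
    rw [this, zero_smul]
  have h5 := Finset.add_sum_erase s' (fun i => c i • N i) hi₀
  rw [hsum] at h5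
  have h6 : v (∑ i ∈ s'.erase i₀, c i • N i) < v (c i₀ • N i₀) := by
    apply Valuation.map_sum_lt
    · rw [hval i₀ hi₀]
      exact (Valuation.ne_zero_iff _).2 (hN i₀)
    · intro i hi
      have hi' := Finset.mem_of_mem_erase hi
      rw [hval i hi', hval i₀ hi₀]
      exact lt_of_le_of_ne (hmax i hi') fun h => (Finset.ne_of_mem_erase hi) (hinj h)
  have h7 : ∑ i ∈ s'.erase i₀, c i • N i = -(c i₀ • N i₀) := by
    rw [eq_neg_iff_add_eq_zero, add_comm]
    exact h5
  rw [h7, Valuation.map_neg] at h6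
  exact lt_irrefl _ h6

open Classical in
/-- the dimension of the span of a finite list of numbers is at least the number of their
valuations -/
theorem card_le_finrank {Γ : Type} [LinearOrderedCommGroupWithZero Γ] (v : Valuation ℂ Γ)
    (hv : ∀ a : ℂ, a ≠ 0 → IsAlgebraic ℚ a → v a = 1) (l : List ℂ) (hl : ∀ x ∈ l, x ≠ 0) :
    ((l.map v).toFinset).card ≤ finrank QB (Submodule.span QB {x | x ∈ l}) := by
  have h1 : ∀ g : {g // g ∈ (l.map v).toFinset}, ∃ x ∈ l, v x = g := by
    rintro ⟨g, hg⟩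
    rw [List.mem_toFinset, List.mem_map] at hg
    obtain ⟨x, hx, hxg⟩ := hg
    exact ⟨x, hx, hxg⟩
  choose N hN hNv using h1
  have h2 : LinearIndependent QB N := indep_of_val v hv N (fun g => hl _ (hN g)) (by
    intro g g' h
    simp only [hNv] at h
    exact Subtype.ext h)
  have h3 : Submodule.span QB (Set.range N) ≤ Submodule.span QB {x | x ∈ l} := by
    apply Submodule.span_mono
    rintro _ ⟨g, rfl⟩
    exact hN g
  have h4 := finrank_span_eq_card h2
  have : FiniteDimensional QB (Submodule.span QB {x | x ∈ l}) :=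
    FiniteDimensional.span_of_finite QB (List.finite_toSet l)
  have h5 := Submodule.finrank_mono h3
  rw [h4, Fintype.card_coe] at h5
  exact h5

end Pool.Agent.E8helper48.RW
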